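import Pool.Agent.H.MP_92a93b_gt.Fam

set_option autoImplicit false
open Filter Topology Set MeasureTheory Function Real
open scoped ContDiff

namespace Pool.Agent.H.MP_92a93b_gt

lemma sq_pos {x : ℝ} (hs : x < 0) : 0 < x ^ 2 := by
  have := mul_pos_of_neg_of_neg hs hs
  rwa [← sq] at this

lemma arctan_le {x : ℝ} (hx : 0 ≤ x) : arctan x ≤ x := by
  have h1 : 0 ≤ arctan x := Real.arctan_nonneg.2 hx
  have h2 := Real.arctan_lt_pi_div_two x
  have := Real.le_tan h1 h2
  rwa [Real.tan_arctan] at this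

noncomputable def eta' (s : ℝ) : ℝ := deriv eta s
lemma eta_deriv (s : ℝ) : HasDerivAt eta (eta' s) s :=
  (eta_smooth.differentiable (by simp) s).hasDerivAt
lemma eta'_cont : Continuous eta' := eta_smooth.continuous_deriv (by simp)

/-- the second representation of the family, for negative τ -/
noncomputable def K (z τ : ℝ) : ℝ :=
  (2 / π) * ∫ θ in (0:ℝ)..(π / 2), eta (exp z * sin θ) * (exp z * cos θ) *
    arctan (cos θ / (-sinh τ))

/-- height -/
noncomputable def V (a τ : ℝ) : ℝ := exp (a - lc τ)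

lemma V_pos (a τ : ℝ) : 0 < V a τ := Real.exp_pos _

lemma V_deriv (a τ : ℝ) : HasDerivAt (V a) (-(th τ) * V a τ) τ := by
  have h := ((lc_deriv τ).const_sub a).exp
  refine h.congr_deriv ?_
  unfold V
  ring

lemma V_cont (a : ℝ) : Continuous (V a) :=
  continuous_iff_continuousAt.2 fun x => (V_deriv a x).continuousAt

lemma V_eq (a τ : ℝ) : V a τ = exp a / cosh τ := by
  unfold V
  rw [Real.exp_sub, exp_lc]

noncomputable def G (a τ θ : ℝ) : ℝ := eta (V a τ * sin θ) * (V a τ * cos θ) *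
    arctan (cos θ / (-sinh τ))

noncomputable def G' (a τ θ : ℝ) : ℝ :=
  (-(th τ)) * (eta' (V a τ * sin θ) * (V a τ * sin θ) * (V a τ * cos θ) +
    eta (V a τ * sin θ) * (V a τ * cos θ)) * arctan (cos θ / (-sinh τ)) +
  eta (V a τ * sin θ) * (V a τ * cos θ) * (cos θ * cosh τ / (sinh τ ^ 2 + cos θ ^ 2))

lemma arg_deriv {τ : ℝ} (hτ : τ < 0) (θ : ℝ) :
    HasDerivAt (fun τ => arctan (cos θ / (-sinh τ)))
      (cos θ * cosh τ / (sinh τ ^ 2 + cos θ ^ 2)) τ := by
  have hs : sinh τ < 0 := Real.sinh_neg_iff.2 hτ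
  have hs' : -sinh τ ≠ 0 := by linarith
  have h1 : HasDerivAt (fun τ => cos θ / (-sinh τ)) (cos θ * cosh τ / sinh τ ^ 2) τ := by
    have := (hasDerivAt_const τ (cos θ)).div (Real.hasDerivAt_sinh τ).neg hs'
    refine this.congr_deriv ?_
    simp only [Pi.neg_apply]
    congr 1
    · ring
    · ring
  refine h1.arctan.congr_deriv ?_
  have hp : 0 < sinh τ ^ 2 := sq_pos hs
  have hp2 : sinh τ ^ 2 + cos θ ^ 2 ≠ 0 := by positivity
  have hs2 : sinh τ ≠ 0 := by linarith
  field_simp

lemma G_deriv (a : ℝ) {τ : ℝ} (hτ : τ < 0) (θ : ℝ) :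
    HasDerivAt (fun τ => G a τ θ) (G' a τ θ) τ := by
  have hv := V_deriv a τ
  have h1 : HasDerivAt (fun τ => eta (V a τ * sin θ))
      (eta' (V a τ * sin θ) * (-(th τ) * V a τ * sin θ)) τ :=
    HasDerivAt.comp (h₂ := eta) (h := fun τ => V a τ * sin θ) τ
      (eta_deriv (V a τ * sin θ)) (hv.mul_const (sin θ))
  have h2 : HasDerivAt (fun τ => V a τ * cos θ) (-(th τ) * V a τ * cos θ) τ :=
    hv.mul_const (cos θ)
  have h3 := (h1.mul h2).mul (arg_deriv hτ θ)
  refine h3.congr_deriv ?_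
  unfold G'
  simp only [Pi.mul_apply]
  ring

noncomputable def MM (a τ θ : ℝ) : ℝ :=
  (-(th τ)) * V a τ * (eta (V a τ * sin θ) * sin θ * arctan (cos θ / (-sinh τ)))

noncomputable def MM' (a τ θ : ℝ) : ℝ :=
  (-(th τ)) * V a τ * ((eta' (V a τ * sin θ) * (V a τ * cos θ) * sin θ +
    eta (V a τ * sin θ) * cos θ) * arctan (cos θ / (-sinh τ)) +
    eta (V a τ * sin θ) * sin θ * (sin θ * sinh τ / (sinh τ ^ 2 + cos θ ^ 2)))

lemma MM_deriv (a : ℝ) {τ : ℝ} (hτ : τ < 0) (θ : ℝ) :
    HasDerivAt (fun θ => MM a τ θ) (MM' a τ θ) θ := by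
  have hs : sinh τ < 0 := Real.sinh_neg_iff.2 hτ
  have hs' : -sinh τ ≠ 0 := by linarith
  have h0 : HasDerivAt (fun θ => arctan (cos θ / (-sinh τ)))
      (sin θ * sinh τ / (sinh τ ^ 2 + cos θ ^ 2)) θ := by
    have h1 : HasDerivAt (fun θ => cos θ / (-sinh τ)) (-sin θ / (-sinh τ)) θ :=
      (Real.hasDerivAt_cos θ).div_const _
    refine h1.arctan.congr_deriv ?_
    have hp : 0 < sinh τ ^ 2 := sq_pos hs
    have hp2 : sinh τ ^ 2 + cos θ ^ 2 ≠ 0 := by positivity
    have hs2 : sinh τ ≠ 0 := by linarith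
    field_simp
  have h1 : HasDerivAt (fun θ => eta (V a τ * sin θ))
      (eta' (V a τ * sin θ) * (V a τ * cos θ)) θ :=
    HasDerivAt.comp (h₂ := eta) (h := fun θ => V a τ * sin θ) θ
      (eta_deriv (V a τ * sin θ)) ((Real.hasDerivAt_sin θ).const_mul (V a τ))
  have h3 := ((h1.mul (Real.hasDerivAt_sin θ)).mul h0).const_mul ((-(th τ)) * V a τ)
  refine h3.congr_deriv ?_
  unfold MM'
  simp only [Pi.mul_apply]

lemma G'_sub (a : ℝ) {τ : ℝ} (hτ : τ < 0) (θ : ℝ) :
    G' a τ θ = MM' a τ θ + V a τ / cosh τ * eta (V a τ * sin θ) := by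
  have hs : sinh τ < 0 := Real.sinh_neg_iff.2 hτ
  have hp : 0 < sinh τ ^ 2 := sq_pos hs
  have hp2 : sinh τ ^ 2 + cos θ ^ 2 ≠ 0 := by positivity
  have hc := (Real.cosh_pos τ).ne'
  have hc2 := Real.cosh_sq τ
  have hsc := Real.sin_sq_add_cos_sq θ
  unfold G' MM'
  have key : V a τ * cos θ * (cos θ * cosh τ / (sinh τ ^ 2 + cos θ ^ 2)) =
      (-(th τ)) * V a τ * (sin θ * (sin θ * sinh τ / (sinh τ ^ 2 + cos θ ^ 2))) +
      V a τ / cosh τ := by
    unfold th
    field_simp
    have e1 : sin θ ^ 2 = 1 - cos θ ^ 2 := by linarith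
    rw [e1, hc2]
    ring
  have e2 : eta (V a τ * sin θ) * (V a τ * cos θ) * (cos θ * cosh τ / (sinh τ ^ 2 + cos θ ^ 2)) =
    eta (V a τ * sin θ) *
    (V a τ * cos θ * (cos θ * cosh τ / (sinh τ ^ 2 + cos θ ^ 2))) := by ring
  rw [e2, key]
  ring

lemma sinh_ne {τ : ℝ} (hτ : τ < 0) : -sinh τ ≠ 0 := by
  have hs : sinh τ < 0 := Real.sinh_neg_iff.2 hτ
  linarith

lemma den_ne {τ : ℝ} (hτ : τ < 0) (θ : ℝ) : sinh τ ^ 2 + cos θ ^ 2 ≠ 0 := by
  have hs : sinh τ < 0 := Real.sinh_neg_iff.2 hτ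
  have hp : 0 < sinh τ ^ 2 := sq_pos hs
  positivity

lemma arg_contOn (a b : ℝ) : ContinuousOn (fun p : ℝ × ℝ => arctan (cos p.2 / (-sinh p.1)))
    (Iio 0 ×ˢ uIcc a b) := by
  apply Real.continuous_arctan.comp_continuousOn
  apply ContinuousOn.div
  · exact (Real.continuous_cos.comp continuous_snd).continuousOn
  · exact (Real.continuous_sinh.comp continuous_fst).neg.continuousOn
  · intro p hp
    exact sinh_ne hp.1

lemma quot_contOn (a b : ℝ) :
    ContinuousOn (fun p : ℝ × ℝ => cos p.2 * cosh p.1 / (sinh p.1 ^ 2 + cos p.2 ^ 2))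
    (Iio 0 ×ˢ uIcc a b) := by
  apply ContinuousOn.div
  · exact ((Real.continuous_cos.comp continuous_snd).mul
      (Real.continuous_cosh.comp continuous_fst)).continuousOn
  · exact (((Real.continuous_sinh.comp continuous_fst).pow 2).add
      ((Real.continuous_cos.comp continuous_snd).pow 2)).continuousOn
  · intro p hp
    exact den_ne hp.1 p.2

lemma V1_cont (a : ℝ) : Continuous (fun p : ℝ × ℝ => V a p.1) := (V_cont a).comp continuous_fst

lemma Vs_cont (a : ℝ) : Continuous (fun p : ℝ × ℝ => V a p.1 * sin p.2) :=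
  (V1_cont a).mul (Real.continuous_sin.comp continuous_snd)
lemma Vc_cont (a : ℝ) : Continuous (fun p : ℝ × ℝ => V a p.1 * cos p.2) :=
  (V1_cont a).mul (Real.continuous_cos.comp continuous_snd)

lemma G_contOn (a : ℝ) : ContinuousOn (uncurry (G a)) (Iio 0 ×ˢ uIcc 0 (π / 2)) := by
  have : uncurry (G a) = fun p : ℝ × ℝ => eta (V a p.1 * sin p.2) * (V a p.1 * cos p.2) *
    arctan (cos p.2 / (-sinh p.1)) := by ext p; rfl
  rw [this]
  exact (((eta_cont.comp (Vs_cont a)).mul (Vc_cont a)).continuousOn).mul (arg_contOn _ _)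

lemma G'_contOn (a : ℝ) : ContinuousOn (uncurry (G' a)) (Iio 0 ×ˢ uIcc 0 (π / 2)) := by
  have : uncurry (G' a) = fun p : ℝ × ℝ =>
    (-(th p.1)) * (eta' (V a p.1 * sin p.2) * (V a p.1 * sin p.2) * (V a p.1 * cos p.2) +
    eta (V a p.1 * sin p.2) * (V a p.1 * cos p.2)) * arctan (cos p.2 / (-sinh p.1)) +
  eta (V a p.1 * sin p.2) * (V a p.1 * cos p.2) *
    (cos p.2 * cosh p.1 / (sinh p.1 ^ 2 + cos p.2 ^ 2)) := by ext p; rfl
  rw [this]
  apply ContinuousOn.add
  · apply ContinuousOn.mul _ (arg_contOn _ _)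
    apply Continuous.continuousOn
    exact (th_cont.comp continuous_fst).neg.mul
      ((((eta'_cont.comp (Vs_cont a)).mul (Vs_cont a)).mul (Vc_cont a)).add
      ((eta_cont.comp (Vs_cont a)).mul (Vc_cont a)))
  · apply ContinuousOn.mul _ (quot_contOn _ _)
    exact ((eta_cont.comp (Vs_cont a)).mul (Vc_cont a)).continuousOn

lemma int_G' (a : ℝ) {τ : ℝ} (hτ : τ < 0) :
    ∫ θ in (0:ℝ)..(π / 2), G' a τ θ = (π / 2) * PP2 a τ := by
  have hsec : ContinuousOn (G' a τ) (uIcc 0 (π / 2)) := by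
    have : ContinuousOn (fun θ => uncurry (G' a) (τ, θ)) (uIcc 0 (π / 2)) := by
      apply (G'_contOn a).comp (by fun_prop)
      intro θ hθ
      exact ⟨hτ, hθ⟩
    exact this
  have hetac : Continuous (fun θ => V a τ / cosh τ * eta (V a τ * sin θ)) :=
    continuous_const.mul (eta_cont.comp (by fun_prop))
  have hM : ∫ θ in (0:ℝ)..(π / 2), MM' a τ θ = MM a τ (π / 2) - MM a τ 0 := by
    apply intervalIntegral.integral_eq_sub_of_hasDerivAt (fun θ _ => MM_deriv a hτ θ)
    apply ContinuousOn.intervalIntegrable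
    have : ∀ θ, MM' a τ θ = G' a τ θ - V a τ / cosh τ * eta (V a τ * sin θ) := by
      intro θ; rw [G'_sub a hτ]; ring
    have e : MM' a τ = fun θ => G' a τ θ - V a τ / cosh τ * eta (V a τ * sin θ) := by
      ext θ; exact this θ
    rw [e]
    exact hsec.sub hetac.continuousOn
  have hMM : MM a τ (π / 2) - MM a τ 0 = 0 := by
    unfold MM; simp
  have e : ∀ θ, G' a τ θ = MM' a τ θ + V a τ / cosh τ * eta (V a τ * sin θ) := G'_sub a hτ
  have hsplit : ∫ θ in (0:ℝ)..(π / 2), G' a τ θ = (∫ θ in (0:ℝ)..(π / 2), MM' a τ θ) +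
      ∫ θ in (0:ℝ)..(π / 2), V a τ / cosh τ * eta (V a τ * sin θ) := by
    rw [← intervalIntegral.integral_add]
    · congr 1
      ext θ
      exact e θ
    · apply ContinuousOn.intervalIntegrable
      have e : MM' a τ = fun θ => G' a τ θ - V a τ / cosh τ * eta (V a τ * sin θ) := by
        ext θ; rw [G'_sub a hτ]; ring
      rw [e]
      exact hsec.sub hetac.continuousOn
    · exact hetac.intervalIntegrable _ _
  rw [hsplit, hM, hMM, zero_add, intervalIntegral.integral_const_mul]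
  unfold PP2 rho
  rw [V_eq]
  have hV : ∀ θ, exp (a - lc τ) * sin θ = exp a / cosh τ * sin θ := by
    intro θ
    have := V_eq a τ
    unfold V at this
    rw [this]
  simp only [hV]
  have hpi := Real.pi_pos.ne'
  have hc := (Real.cosh_pos τ).ne'
  field_simp

lemma K_deriv (a : ℝ) {τ : ℝ} (hτ : τ < 0) :
    HasDerivAt (fun τ => K (a - lc τ) τ) (PP2 a τ) τ := by
  have h := hasDerivAt_pi isOpen_Iio (G_contOn a) (G'_contOn a)
    (fun z hz θ _ => G_deriv a hz θ) (z₀ := τ) hτ
  rw [int_G' a hτ] at h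
  have h2 := h.const_mul (2 / π)
  refine h2.congr_deriv ?_
  have hpi := Real.pi_pos.ne'
  field_simp

/-- the primitive in angular form -/
lemma EE_angle (z : ℝ) : ∫ θ in (0:ℝ)..(π / 2), eta (exp z * sin θ) * (exp z * cos θ) =
    EE (exp z) := by
  have h : ∀ θ, HasDerivAt (fun θ => EE (exp z * sin θ))
      (eta (exp z * sin θ) * (exp z * cos θ)) θ := fun θ =>
    HasDerivAt.comp (h₂ := EE) (h := fun θ => exp z * sin θ) θ
      (EE_deriv (exp z * sin θ)) ((Real.hasDerivAt_sin θ).const_mul (exp z))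
  rw [intervalIntegral.integral_eq_sub_of_hasDerivAt (fun θ _ => h θ)]
  · simp [EE_zero]
  · apply Continuous.intervalIntegrable
    exact (eta_cont.comp (by fun_prop)).mul (by fun_prop)

lemma K_close (z : ℝ) {τ : ℝ} (hτ : τ < 0) :
    |EE (exp z) - K z τ| ≤ exp z * (-sinh τ) := by
  have hs : sinh τ < 0 := Real.sinh_neg_iff.2 hτ
  set S := -sinh τ with hS
  have hSpos : 0 < S := by rw [hS]; linarith
  have hpi := Real.pi_pos
  have e : EE (exp z) - K z τ = (2 / π) * ∫ θ in (0:ℝ)..(π / 2),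
      eta (exp z * sin θ) * (exp z * cos θ) * (π / 2 - arctan (cos θ / S)) := by
    rw [← EE_angle]
    unfold K
    rw [← hS]
    have hc1 : Continuous (fun θ => eta (exp z * sin θ) * (exp z * cos θ)) :=
      (eta_cont.comp (by fun_prop)).mul (by fun_prop)
    have hc2 : Continuous (fun θ => arctan (cos θ / S)) :=
      Real.continuous_arctan.comp (by fun_prop)
    have e1 : ∫ θ in (0:ℝ)..(π / 2),
      eta (exp z * sin θ) * (exp z * cos θ) * (π / 2 - arctan (cos θ / S)) =
      (∫ θ in (0:ℝ)..(π / 2), eta (exp z * sin θ) * (exp z * cos θ) * (π / 2)) -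
      ∫ θ in (0:ℝ)..(π / 2), eta (exp z * sin θ) * (exp z * cos θ) * arctan (cos θ / S) := by
      rw [← intervalIntegral.integral_sub]
      · congr 1
        ext θ
        ring
      · exact (hc1.mul continuous_const).intervalIntegrable _ _
      · exact (hc1.mul hc2).intervalIntegrable _ _
    rw [e1, intervalIntegral.integral_mul_const]
    field_simp
  have hbound : ∀ θ ∈ Icc (0:ℝ) (π / 2), 0 ≤ eta (exp z * sin θ) * (exp z * cos θ) *
      (π / 2 - arctan (cos θ / S)) ∧ eta (exp z * sin θ) * (exp z * cos θ) *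
      (π / 2 - arctan (cos θ / S)) ≤ exp z * S := by
    intro θ hθ
    have hcos : 0 ≤ cos θ := Real.cos_nonneg_of_mem_Icc ⟨by linarith [hθ.1], hθ.2⟩
    have h1 : 0 ≤ π / 2 - arctan (cos θ / S) := by
      have := Real.arctan_lt_pi_div_two (cos θ / S)
      linarith
    have he := eta_nonneg (exp z * sin θ)
    have he1 := eta_le_one (exp z * sin θ)
    have hez := Real.exp_pos z
    refine ⟨by positivity, ?_⟩
    have h2 : cos θ * (π / 2 - arctan (cos θ / S)) ≤ S := by
      rcases hcos.eq_or_lt with h0 | h0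
      · rw [← h0]; simp; exact hSpos.le
      · have h3 : 0 < cos θ / S := div_pos h0 hSpos
        rw [← Real.arctan_inv_of_pos h3]
        have h4 : arctan (cos θ / S)⁻¹ ≤ (cos θ / S)⁻¹ := arctan_le (by positivity)
        calc cos θ * arctan (cos θ / S)⁻¹ ≤ cos θ * (cos θ / S)⁻¹ := by gcongr
          _ = S := by field_simp
    have h3 : 0 ≤ cos θ * (π / 2 - arctan (cos θ / S)) := by positivity
    calc eta (exp z * sin θ) * (exp z * cos θ) * (π / 2 - arctan (cos θ / S)) =
        eta (exp z * sin θ) * (exp z * (cos θ * (π / 2 - arctan (cos θ / S)))) := by ring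
      _ ≤ 1 * (exp z * S) := by gcongr
      _ = exp z * S := one_mul _
  have hcont : Continuous (fun θ => eta (exp z * sin θ) * (exp z * cos θ) *
      (π / 2 - arctan (cos θ / S))) :=
    ((eta_cont.comp (by fun_prop)).mul (by fun_prop)).mul
      (continuous_const.sub (Real.continuous_arctan.comp (by fun_prop)))
  rw [e, abs_of_nonneg]
  · have h := intervalIntegral.integral_mono_on (by positivity : (0:ℝ) ≤ π / 2)
      (hcont.intervalIntegrable (μ := volume) 0 (π / 2)) (intervalIntegrable_const (c := exp z * S))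
      (fun θ hθ => (hbound θ hθ).2)
    rw [intervalIntegral.integral_const] at h
    simp only [sub_zero, smul_eq_mul] at h
    calc 2 / π * ∫ θ in (0:ℝ)..(π / 2), eta (exp z * sin θ) * (exp z * cos θ) *
      (π / 2 - arctan (cos θ / S)) ≤ 2 / π * (π / 2 * (exp z * S)) := by gcongr
      _ = exp z * S := by field_simp
  · have h := intervalIntegral.integral_nonneg (by positivity : (0:ℝ) ≤ π / 2)
      (fun θ hθ => (hbound θ hθ).1) (μ := volume)
    positivity

lemma PP_eq_K (a : ℝ) {τ : ℝ} (hτ : τ < 0) : PP a τ = K (a - lc τ) τ := by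
  set D : ℝ → ℝ := fun τ => PP a τ - K (a - lc τ) τ with hD
  have hd : ∀ x ∈ Iio (0:ℝ), HasDerivAt D 0 x := by
    intro x hx
    have := (PP_deriv2 a x).sub (K_deriv a hx)
    rw [sub_self] at this
    exact this
  have hconst : ∀ x ∈ Iio (0:ℝ), D x = D τ := by
    intro x hx
    apply (convex_Iio (0:ℝ)).is_const_of_fderivWithin_eq_zero (𝕜 := ℝ) (f := D) _ _ hx hτ
    · intro y hy
      exact (hd y hy).differentiableAt.differentiableWithinAt
    · intro y hy
      rw [fderivWithin_of_isOpen isOpen_Iio hy]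
      have := (hd y hy).hasFDerivAt.fderiv
      rw [this]
      ext
      simp
  have hlim : Tendsto D (𝓝[<] 0) (𝓝 0) := by
    have h1 : Tendsto (fun τ => PP a τ) (𝓝[<] 0) (𝓝 (PP a 0)) :=
      ((PP_deriv2 a 0).continuousAt.tendsto).mono_left nhdsWithin_le_nhds
    have hPP0 : PP a 0 = EE (exp a) := by simp [PP]
    have h2 : Tendsto (fun τ => K (a - lc τ) τ) (𝓝[<] 0) (𝓝 (EE (exp a))) := by
      have h3 : Tendsto (fun τ => EE (exp (a - lc τ))) (𝓝[<] 0) (𝓝 (EE (exp a))) := by
        have hc : Continuous (fun τ => EE (exp (a - lc τ))) := by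
          have : Continuous EE := continuous_iff_continuousAt.2 fun x => (EE_deriv x).continuousAt
          exact this.comp (Real.continuous_exp.comp (continuous_const.sub lc_cont))
        have := (hc.tendsto 0).mono_left (nhdsWithin_le_nhds (s := Iio (0:ℝ)))
        simpa [lc_zero] using this
      have h4 : Tendsto (fun τ => exp (a - lc τ) * (-sinh τ)) (𝓝[<] 0) (𝓝 0) := by
        have hc : Continuous (fun τ => exp (a - lc τ) * (-sinh τ)) :=
          (Real.continuous_exp.comp (continuous_const.sub lc_cont)).mul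
            Real.continuous_sinh.neg
        have := (hc.tendsto 0).mono_left (nhdsWithin_le_nhds (s := Iio (0:ℝ)))
        simpa [lc_zero] using this
      have h5 : Tendsto (fun τ => EE (exp (a - lc τ)) - K (a - lc τ) τ) (𝓝[<] 0) (𝓝 0) := by
        apply squeeze_zero_norm' _ h4
        filter_upwards [self_mem_nhdsWithin] with x hx
        exact K_close _ hx
      have h6 := h3.sub h5
      simpa using h6
    have h7 := h1.sub h2
    rw [hPP0, sub_self] at h7
    exact h7
  have hlim2 : Tendsto D (𝓝[<] 0) (𝓝 (D τ)) := by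
    apply tendsto_const_nhds.congr'
    filter_upwards [self_mem_nhdsWithin] with x hx
    exact (hconst x hx).symm
  have := tendsto_nhds_unique hlim hlim2
  have h8 : PP a τ - K (a - lc τ) τ = 0 := this.symm
  linarith

lemma F_eq_K (z : ℝ) {τ : ℝ} (hτ : τ < 0) : F z τ = K z τ := by
  unfold F
  rw [PP_eq_K _ hτ, add_sub_cancel_right]

end Pool.Agent.H.MP_92a93b_gt
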