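import Pool.Agent.H.MP_92a93b_gt.Comp

set_option autoImplicit false
open Filter Topology Set MeasureTheory Function Real
open scoped ContDiff

namespace Pool.Agent.H.MP_92a93b_gt

lemma SS_neg (a τ : ℝ) : SS a (-τ) = - SS a τ := by
  unfold SS
  have h := intervalIntegral.integral_comp_neg (a := 0) (b := τ) (fun x => rho (a - lc x))
  simp only [lc_neg, neg_zero] at h
  rw [h, intervalIntegral.integral_symm]

noncomputable def DD (a τ : ℝ) : ℝ := XX (a - lc τ) - SS a τ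

lemma XXl_deriv (a τ : ℝ) :
    HasDerivAt (fun τ => XX (a - lc τ)) (rho (a - lc τ) * (- th τ)) τ :=
  HasDerivAt.comp (h₂ := XX) (h := fun τ => a - lc τ) τ (XX_deriv _)
    ((lc_deriv τ).const_sub a)

lemma DD_deriv (a τ : ℝ) :
    HasDerivAt (DD a) (rho (a - lc τ) * (- th τ) - rho (a - lc τ)) τ :=
  (XXl_deriv a τ).sub (SS_deriv2 a τ)

lemma DD_antitone (a : ℝ) : Antitone (DD a) := by
  apply antitone_of_hasDerivAt_nonpos (DD_deriv a)
  intro τ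
  have h1 := rho_pos (a - lc τ)
  have h2 := neg_one_lt_th τ
  show rho (a - lc τ) * (- th τ) - rho (a - lc τ) ≤ 0
  nlinarith

lemma DD_bdd (a : ℝ) : BddAbove (range (DD a)) := by
  refine ⟨DD a 0 + 1, ?_⟩
  rintro _ ⟨τ, rfl⟩
  rcases le_total 0 τ with h | h
  · have := DD_antitone a h
    linarith
  · have hm : Monotone (fun τ => DD a τ + (τ + lc τ)) := by
      apply monotone_of_hasDerivAt_nonneg
        (fun τ => (DD_deriv a τ).add ((hasDerivAt_id τ).add (lc_deriv τ)))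
      intro τ
      have h1 := rho_le_one (a - lc τ)
      have h2 := neg_one_lt_th τ
      show 0 ≤ rho (a - lc τ) * (- th τ) - rho (a - lc τ) + (1 + th τ)
      nlinarith
    have h1 := hm h
    simp only [lc_zero] at h1
    have h2 := lc_ge τ
    rw [abs_of_nonpos h] at h2
    linarith

noncomputable def ka (a : ℝ) : ℝ := ⨆ τ, DD a τ

lemma DD_tendsto (a : ℝ) : Tendsto (DD a) atBot (𝓝 (ka a)) :=
  tendsto_atBot_ciSup (DD_antitone a) (DD_bdd a)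

/-- the comparison quantity -/
noncomputable def QQ (Δ τ₁ τ₂ : ℝ) : ℝ :=
  |Δ| + (exp (20 * |Δ|) * (1 / (-sinh τ₁)) + 1 / (-sinh τ₂))

lemma QQ_bound (a₁ a₂ : ℝ) {τ₁ τ₂ : ℝ} (h₁ : τ₁ < 0) (h₂ : τ₂ < 0) :
    |XX (a₁ - lc τ₁) - XX (a₂ - lc τ₂)| + exp (-(a₂ - lc τ₂)) *
      (F (a₁ - lc τ₁) τ₁ + F (a₂ - lc τ₂) τ₂) ≤
      QQ (XX (a₁ - lc τ₁) - XX (a₂ - lc τ₂)) τ₁ τ₂ := by
  unfold QQ
  set z₁ := a₁ - lc τ₁
  set z₂ := a₂ - lc τ₂
  set Δ := XX z₁ - XX z₂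
  have f1 := F_le z₁ h₁
  have f2 := F_le z₂ h₂
  have s1 : 0 < -sinh τ₁ := by have := Real.sinh_neg_iff.2 h₁; linarith
  have s2 : 0 < -sinh τ₂ := by have := Real.sinh_neg_iff.2 h₂; linarith
  have hz : z₁ - z₂ ≤ 20 * |Δ| := (le_abs_self _).trans (XX_abs z₁ z₂)
  have e1 : exp (-z₂) * F z₁ τ₁ ≤ exp (20 * |Δ|) * (1 / (-sinh τ₁)) := by
    calc exp (-z₂) * F z₁ τ₁ ≤ exp (-z₂) * (exp z₁ / (-sinh τ₁)) := by gcongr
      _ = exp (z₁ - z₂) * (1 / (-sinh τ₁)) := by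
        rw [sub_eq_add_neg, Real.exp_add]; ring
      _ ≤ _ := by gcongr
  have e2 : exp (-z₂) * F z₂ τ₂ ≤ 1 / (-sinh τ₂) := by
    calc exp (-z₂) * F z₂ τ₂ ≤ exp (-z₂) * (exp z₂ / (-sinh τ₂)) := by gcongr
      _ = (exp (-z₂) * exp z₂) * (1 / (-sinh τ₂)) := by ring
      _ = 1 / (-sinh τ₂) := by rw [← Real.exp_add]; simp
  rw [mul_add]
  linarith

lemma QQ_tendsto {ι : Type*} {l : Filter ι} {D t₁ t₂ : ι → ℝ} {d : ℝ}
    (hD : Tendsto D l (𝓝 d)) (h1 : Tendsto t₁ l atBot) (h2 : Tendsto t₂ l atBot) :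
    Tendsto (fun i => QQ (D i) (t₁ i) (t₂ i)) l (𝓝 |d|) := by
  have hb : ∀ t : ι → ℝ, Tendsto t l atBot → Tendsto (fun i => 1 / (-sinh (t i))) l (𝓝 0) := by
    intro t ht
    apply Tendsto.div_atTop tendsto_const_nhds
    have : Tendsto (fun i => sinh (-(t i))) l atTop :=
      tendsto_sinh.comp (tendsto_neg_atBot_atTop.comp ht)
    simpa [Real.sinh_neg] using this
  have hD' := hD.abs
  have he : Tendsto (fun i => exp (20 * |D i|)) l (𝓝 (exp (20 * |d|))) :=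
    (Real.continuous_exp.tendsto _).comp (hD'.const_mul 20)
  have := hD'.add ((he.mul (hb t₁ h1)).add (hb t₂ h2))
  simpa [QQ] using this

noncomputable def a₁ : ℝ := Real.log 2
noncomputable def a₂ : ℝ := Real.log 4

lemma EE_a₁ : EE (exp a₁) = EE 2 := by unfold a₁; rw [Real.exp_log (by norm_num)]
lemma EE_a₂ : EE (exp a₂) = EE 2 := by
  unfold a₂; rw [Real.exp_log (by norm_num)]; exact EE_mid (by norm_num) le_rfl

lemma a_ne : a₁ ≠ a₂ := by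
  unfold a₁ a₂
  intro h
  have := Real.log_injOn_pos (Set.mem_Ioi.2 (by norm_num : (0:ℝ) < 2))
    (Set.mem_Ioi.2 (by norm_num : (0:ℝ) < 4)) h
  norm_num at this

/-- time shift -/
noncomputable def kk : ℝ := ka a₁ - ka a₂

noncomputable def alp (t : ℝ) : X := Gl 0 a₁ (1 * t + 0)
noncomputable def bet (t : ℝ) : X := Gl 0 a₂ (1 * t + kk)

lemma alp_line : IsLine alp := Or.inl ⟨0, a₁, 0, 1, Or.inl rfl, fun _ => rfl⟩
lemma bet_line : IsLine bet := Or.inl ⟨0, a₂, kk, 1, Or.inl rfl, fun _ => rfl⟩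

lemma alp_ne_bet : alp ≠ bet := by
  intro h
  have hX : (fun t => XX (zc (Gl 0 a₁ (1 * t + 0)))) = fun t => XX (zc (Gl 0 a₂ (1 * t + kk))) := by
    ext t
    have := congrFun h t
    unfold alp bet at this
    rw [this]
  have dx := (Gl_X_deriv 0 a₁ 0 1 0).unique ((Gl_X_deriv 0 a₂ kk 1 0).congr_of_eventuallyEq
    (Eventually.of_forall fun t => congrFun hX t))
  have hth : th (tau a₁ (1 * 0 + 0)) = th (tau a₂ (1 * 0 + kk)) := by linarith
  have hττ := th_inj hth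
  have hz := congrArg zc (congrFun h 0)
  unfold alp bet Gl fam at hz
  rw [zc_pt, zc_pt, hττ] at hz
  apply a_ne
  linarith

lemma dist_bound_neg (t : ℝ) (h₁ : tau a₁ t < 0) (h₂ : tau a₂ (t + kk) < 0) :
    dist (alp t) (bet t) ≤ QQ (DD a₁ (tau a₁ t) - DD a₂ (tau a₂ (t + kk)) - kk)
      (tau a₁ t) (tau a₂ (t + kk)) := by
  set τ₁ := tau a₁ t with hτ₁
  set τ₂ := tau a₂ (t + kk) with hτ₂
  have e1 : alp t = pt (a₁ - lc τ₁) (0 + PP a₁ τ₁) := by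
    unfold alp Gl fam; rw [one_mul, add_zero]
  have e2 : bet t = pt (a₂ - lc τ₂) (0 + PP a₂ τ₂) := by
    unfold bet Gl fam; rw [one_mul]
  have hΔ : DD a₁ τ₁ - DD a₂ τ₂ - kk = XX (a₁ - lc τ₁) - XX (a₂ - lc τ₂) := by
    unfold DD
    rw [hτ₁, hτ₂, SS_tau, SS_tau]
    ring
  rw [hΔ]
  refine le_trans ?_ (QQ_bound a₁ a₂ h₁ h₂)
  rw [e1, e2]
  refine (two_leg _ _ _ _).trans ?_
  have f1 := F_pos (a₁ - lc τ₁) τ₁
  have f2 := F_pos (a₂ - lc τ₂) τ₂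
  have hy : |0 + PP a₁ τ₁ - (0 + PP a₂ τ₂)| ≤ F (a₁ - lc τ₁) τ₁ + F (a₂ - lc τ₂) τ₂ := by
    rw [PP_eq_F a₁, PP_eq_F a₂, abs_le]
    constructor <;> linarith
  gcongr

lemma dist_bound_pos (t : ℝ) (h₁ : 0 < tau a₁ t) (h₂ : 0 < tau a₂ (t + kk)) :
    dist (alp t) (bet t) ≤ QQ (DD a₁ (-(tau a₁ t)) - DD a₂ (-(tau a₂ (t + kk))) + kk)
      (-(tau a₁ t)) (-(tau a₂ (t + kk))) := by
  set τ₁ := tau a₁ t with hτ₁
  set τ₂ := tau a₂ (t + kk) with hτ₂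
  have e1 : alp t = pt (a₁ - lc τ₁) (0 + PP a₁ τ₁) := by
    unfold alp Gl fam; rw [one_mul, add_zero]
  have e2 : bet t = pt (a₂ - lc τ₂) (0 + PP a₂ τ₂) := by
    unfold bet Gl fam; rw [one_mul]
  have hΔ : DD a₁ (-τ₁) - DD a₂ (-τ₂) + kk = XX (a₁ - lc (-τ₁)) - XX (a₂ - lc (-τ₂)) := by
    unfold DD
    rw [SS_neg, SS_neg, hτ₁, hτ₂, SS_tau, SS_tau]
    ring
  rw [hΔ]
  refine le_trans ?_ (QQ_bound a₁ a₂ (by linarith) (by linarith))
  rw [e1, e2]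
  refine (two_leg _ _ _ _).trans ?_
  rw [lc_neg, lc_neg]
  have f1 := F_pos (a₁ - lc τ₁) (-τ₁)
  have f2 := F_pos (a₂ - lc τ₂) (-τ₂)
  have g1 : PP a₁ τ₁ = 2 * EE 2 - F (a₁ - lc τ₁) (-τ₁) := by
    rw [PP_eq_F, F_reflect, sub_add_cancel, EE_a₁]
  have g2 : PP a₂ τ₂ = 2 * EE 2 - F (a₂ - lc τ₂) (-τ₂) := by
    rw [PP_eq_F, F_reflect, sub_add_cancel, EE_a₂]
  have hy : |0 + PP a₁ τ₁ - (0 + PP a₂ τ₂)| ≤
      F (a₁ - lc τ₁) (-τ₁) + F (a₂ - lc τ₂) (-τ₂) := by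
    rw [g1, g2, abs_le]
    constructor <;> linarith
  gcongr

lemma tau_bot (a : ℝ) : Tendsto (tau a) atBot atBot := (tau a).tendsto_atBot
lemma tau_top (a : ℝ) : Tendsto (tau a) atTop atTop := (tau a).tendsto_atTop

theorem dist_bot : Tendsto (fun t => dist (alp t) (bet t)) atBot (𝓝 0) := by
  have t1 : Tendsto (fun t => tau a₁ t) atBot atBot := tau_bot a₁
  have t2 : Tendsto (fun t => tau a₂ (t + kk)) atBot atBot :=
    (tau_bot a₂).comp (tendsto_atBot_add_const_right _ _ tendsto_id)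
  have hD : Tendsto (fun t => DD a₁ (tau a₁ t) - DD a₂ (tau a₂ (t + kk)) - kk) atBot
      (𝓝 (ka a₁ - ka a₂ - kk)) :=
    (((DD_tendsto a₁).comp t1).sub ((DD_tendsto a₂).comp t2)).sub_const kk
  have h := QQ_tendsto hD t1 t2
  have e : |ka a₁ - ka a₂ - kk| = 0 := by unfold kk; simp
  rw [e] at h
  apply squeeze_zero' (Eventually.of_forall fun t => dist_nonneg) _ h
  filter_upwards [t1.eventually (eventually_lt_atBot 0), t2.eventually (eventually_lt_atBot 0)]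
    with t h1 h2
  exact dist_bound_neg t h1 h2

theorem dist_top : ∃ C : ℝ, ∀ᶠ t in atTop, dist (alp t) (bet t) ≤ C := by
  have t1 : Tendsto (fun t => -(tau a₁ t)) atTop atBot :=
    tendsto_neg_atTop_atBot.comp (tau_top a₁)
  have t2 : Tendsto (fun t => -(tau a₂ (t + kk))) atTop atBot :=
    tendsto_neg_atTop_atBot.comp
      ((tau_top a₂).comp (tendsto_atTop_add_const_right _ _ tendsto_id))
  have hD : Tendsto (fun t => DD a₁ (-(tau a₁ t)) - DD a₂ (-(tau a₂ (t + kk))) + kk) atTop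
      (𝓝 (ka a₁ - ka a₂ + kk)) :=
    (((DD_tendsto a₁).comp t1).sub ((DD_tendsto a₂).comp t2)).add_const kk
  have h := QQ_tendsto hD t1 t2
  refine ⟨|ka a₁ - ka a₂ + kk| + 1, ?_⟩
  filter_upwards [h.eventually (gt_mem_nhds (by linarith :
    |ka a₁ - ka a₂ + kk| < |ka a₁ - ka a₂ + kk| + 1)),
    t1.eventually (eventually_lt_atBot 0), t2.eventually (eventually_lt_atBot 0)]
    with t h0 h1 h2
  exact (dist_bound_pos t (by linarith) (by linarith)).trans h0.le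

end Pool.Agent.H.MP_92a93b_gt
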