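import Pool.Agent.H.MP_92a93b_gt.Metric

set_option autoImplicit false
open Bundle Filter Topology Manifold Bornology Set MeasureTheory
open scoped Manifold ContDiff ENNReal

namespace Pool.Agent.H.MP_92a93b_gt

variable (D : Dat)

/-- the norm of a vector v at a point with first coordinate z -/
noncomputable def nrm (z : ℝ) (v : E2) : ℝ := √(bil D z v v)

lemma nrm_eq (z : ℝ) (v : E2) :
    nrm D z v = √((D.A z * v 0) ^ 2 + (D.B z * v 1) ^ 2) := by
  rw [nrm, bil_apply]; congr 1; ring

set_option backward.isDefEq.respectTransparency false in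
lemma norm_tangent (x : Pl D) (v : TangentSpace 𝓘(ℝ, E2) x) :
    ‖v‖ = nrm D ((show E2 from x) 0) (show E2 from v) := by
  rw [norm_eq_sqrt_real_inner]
  rfl

lemma enorm_tangent (x : Pl D) (v : TangentSpace 𝓘(ℝ, E2) x) :
    ‖v‖ₑ = ENNReal.ofReal (nrm D ((show E2 from x) 0) (show E2 from v)) := by
  rw [← norm_tangent, ofReal_norm]

lemma mfd_eq (γ : ℝ → Pl D) (s : Set ℝ) (t : ℝ) :
    mfderivWithin 𝓘(ℝ, ℝ) 𝓘(ℝ, E2) γ s t = fderivWithin ℝ (fun t => (show E2 from γ t)) s t :=
  mfderivWithin_eq_fderivWithin (f := fun t => (show E2 from γ t)) (s := s) (x := t)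

lemma pathELength_eq (γ : ℝ → Pl D) (a b : ℝ) :
    pathELength 𝓘(ℝ, E2) γ a b = ∫⁻ t in Icc a b, ENNReal.ofReal (nrm D ((show E2 from γ t) 0)
      (derivWithin (fun t => (show E2 from γ t)) (Icc a b) t)) := by
  rw [pathELength_eq_lintegral_mfderivWithin_Icc]
  congr 1
  ext t
  rw [enorm_tangent, mfd_eq]
  rfl

lemma cmd_iff (γ : ℝ → Pl D) (s : Set ℝ) :
    ContMDiffOn 𝓘(ℝ, ℝ) 𝓘(ℝ, E2) 1 γ s ↔ ContDiffOn ℝ 1 (fun t => (show E2 from γ t)) s :=
  contMDiffOn_iff_contDiffOn (f := fun t => (show E2 from γ t)) (s := s)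

/-- lower bound for the distance by a function of gradient at most one -/
lemma le_edist (f : E2 → ℝ) (hf : ContDiff ℝ 1 f)
    (hb : ∀ p v : E2, |fderiv ℝ f p v| ≤ nrm D (p 0) v) (x y : Pl D) :
    ENNReal.ofReal |f (show E2 from y) - f (show E2 from x)| ≤ riemannianEDist 𝓘(ℝ, E2) x y := by
  apply le_of_forall_gt
  intro r hr
  obtain ⟨γ, h0, h1, hγ, hl⟩ := exists_lt_of_riemannianEDist_lt hr
  refine lt_of_le_of_lt ?_ hl
  rw [cmd_iff] at hγ
  rw [pathELength_eq]
  set c : ℝ → E2 := fun t => (show E2 from γ t) with hc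
  have h0' : (show E2 from x) = c 0 := h0.symm
  have h1' : (show E2 from y) = c 1 := h1.symm
  rw [h0', h1']
  have hfc : ContDiffOn ℝ 1 (f ∘ c) (Icc 0 1) := hf.comp_contDiffOn hγ
  have key := enorm_sub_le_lintegral_derivWithin_Icc_of_contDiffOn_Icc hfc zero_le_one
  have e1 : ‖(f ∘ c) 1 - (f ∘ c) 0‖ₑ = ENNReal.ofReal |f (c 1) - f (c 0)| := by
    rw [← ofReal_norm]; rfl
  rw [e1] at key
  refine key.trans ?_
  apply setLIntegral_mono' measurableSet_Icc
  intro t ht
  have hcd : DifferentiableWithinAt ℝ c (Icc 0 1) t := hγ.differentiableOn one_ne_zero t ht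
  have hu : UniqueDiffWithinAt ℝ (Icc (0:ℝ) 1) t := uniqueDiffOn_Icc zero_lt_one t ht
  have hfd : DifferentiableAt ℝ f (c t) := hf.differentiable one_ne_zero _
  have : derivWithin (f ∘ c) (Icc 0 1) t = fderiv ℝ f (c t) (derivWithin c (Icc 0 1) t) := by
    exact (hfd.hasFDerivAt.comp_hasDerivWithinAt t hcd.hasDerivWithinAt).derivWithin hu
  rw [this, ← ofReal_norm]
  exact ENNReal.ofReal_le_ofReal (hb _ _)

/-- upper bound for the distance by the length of a curve -/
lemma edist_le (c : ℝ → E2) (hc : ContDiff ℝ 1 c) (L : ℝ → ℝ) (a b : ℝ) (hab : a ≤ b)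
    (hL : ∀ t, HasDerivAt L (nrm D (c t 0) (deriv c t)) t) :
    riemannianEDist 𝓘(ℝ, E2) (show Pl D from c a) (show Pl D from c b) ≤
      ENNReal.ofReal (L b - L a) := by
  have h1 : riemannianEDist 𝓘(ℝ, E2) (show Pl D from c a) (show Pl D from c b) ≤
      pathELength 𝓘(ℝ, E2) (fun t => (show Pl D from c t)) a b := by
    apply riemannianEDist_le_pathELength _ rfl rfl hab
    rw [cmd_iff]
    exact hc.contDiffOn
  refine h1.trans ?_
  rw [pathELength_eq]
  have hnn : ∀ t, 0 ≤ nrm D (c t 0) (deriv c t) := fun t => Real.sqrt_nonneg _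
  have hcont : Continuous (fun t => nrm D (c t 0) (deriv c t)) := by
    have h2 : Continuous c := hc.continuous
    have h3 : Continuous (deriv c) := hc.continuous_deriv le_rfl
    have h4 : Continuous (fun t => bil D (c t 0)) :=
      (bil_contDiff D).continuous.comp h2
    unfold nrm
    exact Real.continuous_sqrt.comp ((h4.clm_apply h3).clm_apply h3)
  have hint : ∫ t in a..b, nrm D (c t 0) (deriv c t) = L b - L a :=
    intervalIntegral.integral_eq_sub_of_hasDerivAt (fun t _ => hL t)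
      (hcont.intervalIntegrable a b)
  rcases hab.eq_or_lt with rfl | hab'
  · simp
  rw [← hint, intervalIntegral.integral_of_le hab, ofReal_integral_eq_lintegral_ofReal
    ((hcont.intervalIntegrable a b).1) (ae_of_all _ hnn), restrict_Ioc_eq_restrict_Icc]
  apply le_of_eq
  apply setLIntegral_congr_fun measurableSet_Icc
  intro t ht
  have hu : UniqueDiffWithinAt ℝ (Icc a b) t := uniqueDiffOn_Icc hab' t ht
  have hd : derivWithin c (Icc a b) t = deriv c t :=
    (hc.differentiable one_ne_zero t).derivWithin hu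
  show ENNReal.ofReal (nrm D (c t 0) (derivWithin c (Icc a b) t)) = _
  rw [hd]

lemma edist_ne_top (x y : Pl D) : riemannianEDist 𝓘(ℝ, E2) x y ≠ ⊤ := by
  set c : ℝ → E2 := fun t => (show E2 from x) + t • ((show E2 from y) - (show E2 from x)) with hc
  have hcd : ContDiff ℝ 1 c := by
    apply contDiff_const.add
    exact ContDiff.smul contDiff_id contDiff_const
  have hcont : Continuous (fun t => nrm D (c t 0) (deriv c t)) := by
    have h2 : Continuous c := hcd.continuous
    have h3 : Continuous (deriv c) := hcd.continuous_deriv le_rfl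
    have h4 : Continuous (fun t => bil D (c t 0)) :=
      (bil_contDiff D).continuous.comp h2
    unfold nrm
    exact Real.continuous_sqrt.comp ((h4.clm_apply h3).clm_apply h3)
  have h := edist_le D c hcd (fun t => ∫ s in (0:ℝ)..t, nrm D (c s 0) (deriv c s)) 0 1 zero_le_one
    (fun t => hcont.integral_hasStrictDerivAt 0 t |>.hasDerivAt)
  have e0 : c 0 = (show E2 from x) := by simp [hc]
  have e1 : c 1 = (show E2 from y) := by simp [hc]
  rw [e0, e1] at h
  exact ne_top_of_le_ne_top ENNReal.ofReal_ne_top h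

noncomputable instance : MetricSpace (Pl D) :=
  letI : EMetricSpace (Pl D) := EMetricSpace.ofRiemannianMetric 𝓘(ℝ, E2) (Pl D)
  EMetricSpace.toMetricSpace (edist_ne_top D)

instance : IsRiemannianManifold 𝓘(ℝ, E2) (Pl D) := ⟨fun _ _ => rfl⟩

lemma edist_eq (x y : Pl D) : edist x y = riemannianEDist 𝓘(ℝ, E2) x y := rfl

lemma le_dist (f : E2 → ℝ) (hf : ContDiff ℝ 1 f)
    (hb : ∀ p v : E2, |fderiv ℝ f p v| ≤ nrm D (p 0) v) (x y : Pl D) :
    |f (show E2 from y) - f (show E2 from x)| ≤ dist x y := by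
  have h := le_edist D f hf hb x y
  rw [← edist_eq, edist_dist] at h
  exact (ENNReal.ofReal_le_ofReal_iff dist_nonneg).1 h

lemma dist_le (c : ℝ → E2) (hc : ContDiff ℝ 1 c) (L : ℝ → ℝ) (a b : ℝ) (hab : a ≤ b)
    (hL : ∀ t, HasDerivAt L (nrm D (c t 0) (deriv c t)) t) :
    dist (show Pl D from c a) (show Pl D from c b) ≤ L b - L a := by
  have h := edist_le D c hc L a b hab hL
  rw [← edist_eq, edist_dist] at h
  have hmono : Monotone L := by
    apply monotone_of_hasDerivAt_nonneg hL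
    intro t
    exact Real.sqrt_nonneg _
  have h0 : 0 ≤ L b - L a := sub_nonneg.2 (hmono hab)
  exact (ENNReal.ofReal_le_ofReal_iff h0).1 h

end Pool.Agent.H.MP_92a93b_gt
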