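import Pool.Agent.H.MP_92a93b_gt.Mono
import Pool.Agent.H.MP_92a93b_gt.Dist

set_option autoImplicit false
open Filter Topology Set MeasureTheory Function Real
open scoped ContDiff

namespace Pool.Agent.H.MP_92a93b_gt

/-- the Busemann function on the upper region -/
noncomputable def bh (z y : ℝ) : ℝ := W z (T z y)

noncomputable def PhiE (z τ : ℝ) : (ℝ × ℝ) ≃L[ℝ] (ℝ × ℝ) :=
  ContinuousLinearEquiv.equivOfInverse
    ((ContinuousLinearMap.fst ℝ ℝ ℝ).prod
      (F1 z τ • ContinuousLinearMap.fst ℝ ℝ ℝ + F2 z τ • ContinuousLinearMap.snd ℝ ℝ ℝ))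
    ((ContinuousLinearMap.fst ℝ ℝ ℝ).prod
      ((-(F1 z τ / F2 z τ)) • ContinuousLinearMap.fst ℝ ℝ ℝ +
        (1 / F2 z τ) • ContinuousLinearMap.snd ℝ ℝ ℝ))
    (by
      intro p
      have := (F2_pos z τ).ne'
      ext
      · simp
      · simp; field_simp; ring)
    (by
      intro p
      have := (F2_pos z τ).ne'
      ext
      · simp
      · simp; field_simp; ring)

lemma g_hasFDeriv (z y : ℝ) (hy : 0 < y) :
    HasFDerivAt (fun p : ℝ × ℝ => (p.1, T p.1 p.2))
      ((PhiE z (T z y)).symm : (ℝ × ℝ) →L[ℝ] (ℝ × ℝ)) (z, y) := by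
  apply HasFDerivAt.of_local_left_inverse (f := fun p : ℝ × ℝ => (p.1, F p.1 p.2))
  · exact continuousAt_fst.prodMk (T_contAt z y hy)
  · have h := (hasFDerivAt_fst (𝕜 := ℝ) (p := (z, T z y))).prodMk (F_hasFDeriv (z, T z y))
    exact h
  · have c3 : ∀ᶠ p : ℝ × ℝ in 𝓝 (z, y), 0 < p.2 :=
      continuous_const.continuousAt.eventually_lt continuous_snd.continuousAt hy
    filter_upwards [c3] with p hp
    ext
    · rfl
    · exact F_T p.1 hp

lemma bh_hasFDeriv (z y : ℝ) (hy : 0 < y) :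
    HasFDerivAt (fun p : ℝ × ℝ => bh p.1 p.2)
      ((-(rho z * th (T z y))) • ContinuousLinearMap.fst ℝ ℝ ℝ +
        cl z (T z y) • ContinuousLinearMap.snd ℝ ℝ ℝ) (z, y) := by
  have h := (W_hasFDeriv (z, T z y)).comp (z, y) (g_hasFDeriv z y hy)
  have e : ((-(rho z * th (T z y))) • ContinuousLinearMap.fst ℝ ℝ ℝ +
        cl z (T z y) • ContinuousLinearMap.snd ℝ ℝ ℝ) =
      (W1 z (T z y) • ContinuousLinearMap.fst ℝ ℝ ℝ +
        W2 z (T z y) • ContinuousLinearMap.snd ℝ ℝ ℝ).comp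
        ((PhiE z (T z y)).symm : (ℝ × ℝ) →L[ℝ] (ℝ × ℝ)) := by
    have h2 := (F2_pos z (T z y)).ne'
    have h3 := rel1 z (T z y)
    have h4 := rel2 z (T z y)
    have e1 : ∀ p : ℝ × ℝ, (PhiE z (T z y)).symm p =
      (p.1, (-(F1 z (T z y) / F2 z (T z y))) * p.1 + (1 / F2 z (T z y)) * p.2) := by
      intro p; rfl
    apply ContinuousLinearMap.ext
    intro p
    rw [ContinuousLinearMap.comp_apply]
    simp only [ContinuousLinearEquiv.coe_coe]
    rw [e1]
    simp only [add_apply, smul_apply,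
      ContinuousLinearMap.coe_fst', ContinuousLinearMap.coe_snd', smul_eq_mul]
    rw [h3, h4]
    field_simp
    ring
  rw [e]
  exact h

lemma bh_deriv_y (z y : ℝ) (hy : 0 < y) : HasDerivAt (bh z) (cl z (T z y)) y := by
  have h := (bh_hasFDeriv z y hy).comp_hasDerivAt y ((hasDerivAt_const y z).prodMk (hasDerivAt_id y))
  refine h.congr_deriv ?_
  simp

/-- the Clairaut function, extended by zero -/
noncomputable def cp (z y : ℝ) : ℝ := if 0 < y then cl z (T z y) else 0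

lemma cp_pos {z y : ℝ} (hy : 0 < y) : cp z y = cl z (T z y) := if_pos hy
lemma cp_neg {z y : ℝ} (hy : y ≤ 0) : cp z y = 0 := if_neg (not_lt.2 hy)

lemma cl_cont : Continuous (uncurry cl) := by
  have : uncurry cl = fun p : ℝ × ℝ => exp (-p.1) / cosh p.2 := by ext p; rfl
  rw [this]
  apply Continuous.div
  · exact Real.continuous_exp.comp continuous_fst.neg
  · exact Real.continuous_cosh.comp continuous_snd
  · intro p; exact (Real.cosh_pos _).ne'

lemma T_cont1 (z y : ℝ) (hy : 0 < y) : ContinuousAt (T z) y :=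
  (T_contAt z y hy).comp (continuousAt_const.prodMk continuousAt_id)

lemma T_tendsto_zero (z : ℝ) : Tendsto (T z) (𝓝[>] 0) atBot := by
  rw [tendsto_atBot]
  intro b
  have h : ∀ᶠ y in 𝓝[>] (0:ℝ), y < F z b :=
    nhdsWithin_le_nhds (gt_mem_nhds (F_pos z b))
  filter_upwards [h, self_mem_nhdsWithin] with y h1 h2
  exact (T_lt z h2 h1).le

lemma tendsto_cosh_atBot : Tendsto cosh atBot atTop := by
  have h : Tendsto (fun x : ℝ => cosh (-x)) atBot atTop := by
    have hc : Tendsto cosh atTop atTop := by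
      apply tendsto_atTop_mono' atTop (f₁ := sinh)
      · exact Eventually.of_forall fun x => (Real.sinh_lt_cosh x).le
      · exact tendsto_sinh
    exact hc.comp tendsto_neg_atBot_atTop
  simpa using h

lemma cp_cont (z : ℝ) : Continuous (cp z) := by
  rw [continuous_iff_continuousAt]
  intro y
  rcases lt_trichotomy y 0 with h | h | h
  · have : cp z =ᶠ[𝓝 y] fun _ => 0 := by
      filter_upwards [gt_mem_nhds h] with x hx
      exact cp_neg hx.le
    exact continuousAt_const.congr this.symm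
  · subst h
    rw [continuousAt_iff_continuous_left_right]
    constructor
    · have e : cp z 0 = 0 := cp_neg le_rfl
      have h0 : ∀ x ∈ Iic (0:ℝ), cp z x = 0 := fun x hx => cp_neg hx
      exact (continuousWithinAt_const (b := (0:ℝ))).congr h0 e
    · rw [← continuousWithinAt_Ioi_iff_Ici]
      show Tendsto (cp z) (𝓝[>] 0) (𝓝 (cp z 0))
      rw [cp_neg le_rfl]
      have h1 : Tendsto (fun y => exp (-z) / cosh (T z y)) (𝓝[>] 0) (𝓝 0) := by
        apply Tendsto.div_atTop tendsto_const_nhds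
        exact tendsto_cosh_atBot.comp (T_tendsto_zero z)
      apply h1.congr'
      filter_upwards [self_mem_nhdsWithin] with y hy
      rw [cp_pos hy]
      rfl
  · have : cp z =ᶠ[𝓝 y] fun y => cl z (T z y) := by
      filter_upwards [lt_mem_nhds h] with x hx
      exact cp_pos hx
    apply ContinuousAt.congr _ this.symm
    exact (cl_cont.comp (continuous_const.prodMk continuous_id)).continuousAt.comp
      (T_cont1 z y h)

/-- the extended Busemann function -/
noncomputable def bp (z y : ℝ) : ℝ := bh z 1 + ∫ s in (1:ℝ)..y, cp z s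

lemma bp_deriv (z y : ℝ) : HasDerivAt (bp z) (cp z y) y := by
  have := ((cp_cont z).integral_hasStrictDerivAt 1 y).hasDerivAt.const_add (bh z 1)
  exact this

lemma bp_cont (z : ℝ) : Continuous (bp z) :=
  continuous_iff_continuousAt.2 fun y => (bp_deriv z y).continuousAt

lemma bp_eq {z y : ℝ} (hy : 0 < y) : bp z y = bh z y := by
  have h : ∫ s in (1:ℝ)..y, cp z s = bh z y - bh z 1 := by
    apply intervalIntegral.integral_eq_sub_of_hasDerivAt
    · intro s hs
      have hs0 : 0 < s := by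
        have := hs.1
        exact lt_of_lt_of_le (lt_min one_pos hy) this
      rw [cp_pos hs0]
      exact bh_deriv_y z s hs0
    · exact (cp_cont z).intervalIntegrable _ _
  unfold bp
  rw [h]; ring

lemma bp_nonpos {z y : ℝ} (hy : y ≤ 0) : bp z y = bp z 0 := by
  unfold bp
  congr 1
  have h1 : ∫ s in (1:ℝ)..y, cp z s = (∫ s in (1:ℝ)..0, cp z s) + ∫ s in (0:ℝ)..y, cp z s :=
    (intervalIntegral.integral_add_adjacent_intervals
      ((cp_cont z).intervalIntegrable _ _) ((cp_cont z).intervalIntegrable _ _)).symm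
  have h2 : ∫ s in (0:ℝ)..y, cp z s = ∫ s in (0:ℝ)..y, 0 := by
    apply intervalIntegral.integral_congr
    intro s hs
    rw [uIcc_of_ge hy] at hs
    exact cp_neg hs.2
  rw [h1, h2, intervalIntegral.integral_zero, add_zero]

/-- the metric data -/
noncomputable def D0 : Dat where
  A := rho
  B := fun z => exp (-z)
  smoothA := rho_smooth
  smoothB := Real.contDiff_exp.comp contDiff_neg
  posA := rho_pos
  posB := fun _ => Real.exp_pos _

/-- our manifold -/
abbrev X : Type := Pl D0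

lemma nrm_D0 (z : ℝ) (v : E2) : nrm D0 z v = √((rho z * v 0) ^ 2 + (exp (-z) * v 1) ^ 2) :=
  nrm_eq D0 z v

/-- smoothing of the positive part -/
noncomputable def ph (ε y : ℝ) : ℝ := (y + √(y ^ 2 + ε ^ 2)) / 2

lemma ph_pos {ε : ℝ} (hε : 0 < ε) (y : ℝ) : 0 < ph ε y := by
  unfold ph
  have h1 : |y| < √(y ^ 2 + ε ^ 2) := by
    apply Real.lt_sqrt_of_sq_lt
    rw [sq_abs]
    nlinarith [mul_pos hε hε]
  have := neg_abs_le y
  linarith

noncomputable def ph' (ε y : ℝ) : ℝ := (1 + y / √(y ^ 2 + ε ^ 2)) / 2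

lemma ph_deriv {ε : ℝ} (hε : 0 < ε) (y : ℝ) : HasDerivAt (ph ε) (ph' ε y) y := by
  have hpos : 0 < y ^ 2 + ε ^ 2 := by positivity
  have h1 : HasDerivAt (fun y : ℝ => y ^ 2 + ε ^ 2) (2 * y) y := by
    have := (hasDerivAt_pow 2 y).add_const (ε ^ 2)
    simpa using this
  have h2 := h1.sqrt hpos.ne'
  have h3 := ((hasDerivAt_id y).add h2).div_const 2
  refine h3.congr_deriv ?_
  unfold ph'
  congr 2
  have := (Real.sqrt_pos.2 hpos).ne'
  field_simp

lemma ph'_bound {ε : ℝ} (hε : 0 < ε) (y : ℝ) : 0 ≤ ph' ε y ∧ ph' ε y ≤ 1 := by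
  have hpos : 0 < y ^ 2 + ε ^ 2 := by positivity
  have hs := Real.sqrt_pos.2 hpos
  have h1 : |y| < √(y ^ 2 + ε ^ 2) := by
    apply Real.lt_sqrt_of_sq_lt
    rw [sq_abs]
    nlinarith [mul_pos hε hε]
  have h2 : |y / √(y ^ 2 + ε ^ 2)| ≤ 1 := by
    rw [abs_div, abs_of_pos hs]
    exact (div_le_one hs).2 h1.le
  have := abs_le.1 h2
  unfold ph'
  constructor <;> linarith

lemma ph'_cont {ε : ℝ} (hε : 0 < ε) : Continuous (ph' ε) := by
  unfold ph'
  apply Continuous.div_const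
  apply continuous_const.add
  apply Continuous.div continuous_id (by fun_prop)
  intro y
  have hpos : 0 < y ^ 2 + ε ^ 2 := by positivity
  exact (Real.sqrt_pos.2 hpos).ne'

lemma ph_cont {ε : ℝ} (hε : 0 < ε) : Continuous (ph ε) :=
  continuous_iff_continuousAt.2 fun y => (ph_deriv hε y).continuousAt

lemma T_comp_cont {α : Type*} [TopologicalSpace α] {f g : α → ℝ} (hf : Continuous f)
    (hg : Continuous g) (hp : ∀ x, 0 < g x) : Continuous (fun x => T (f x) (g x)) := by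
  rw [continuous_iff_continuousAt]
  intro x
  exact ContinuousAt.comp (f := fun x => (f x, g x)) (g := fun p : ℝ × ℝ => T p.1 p.2) (x := x)
    (T_contAt _ _ (hp x)) (hf.continuousAt.prodMk hg.continuousAt)

/-- the smoothed Busemann function -/
noncomputable def fe (ε ξ : ℝ) (p : E2) : ℝ := bh (p 0) (ph ε (p 1 - ξ))

noncomputable def al (ε ξ : ℝ) (p : E2) : ℝ := -(rho (p 0) * th (T (p 0) (ph ε (p 1 - ξ))))
noncomputable def bt (ε ξ : ℝ) (p : E2) : ℝ :=
  cl (p 0) (T (p 0) (ph ε (p 1 - ξ))) * ph' ε (p 1 - ξ)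

lemma fe_hasFDeriv {ε : ℝ} (hε : 0 < ε) (ξ : ℝ) (p : E2) :
    HasFDerivAt (fe ε ξ) (al ε ξ p • e0 + bt ε ξ p • e1) p := by
  have h0 : HasFDerivAt (fun p : E2 => p 0) e0 p := e0.hasFDerivAt
  have h1 : HasFDerivAt (fun p : E2 => p 1) e1 p := e1.hasFDerivAt
  have h2 : HasFDerivAt (fun p : E2 => ph ε (p 1 - ξ)) (ph' ε (p 1 - ξ) • e1) p :=
    HasDerivAt.comp_hasFDerivAt (h₂ := ph ε) (f := fun p : E2 => p 1 - ξ) p
      (ph_deriv hε (p 1 - ξ)) (h1.sub_const ξ)
  have h3 := (bh_hasFDeriv (p 0) (ph ε (p 1 - ξ)) (ph_pos hε _)).comp p (h0.prodMk h2)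
  have e : al ε ξ p • e0 + bt ε ξ p • e1 =
      ((-(rho (p 0) * th (T (p 0) (ph ε (p 1 - ξ))))) • ContinuousLinearMap.fst ℝ ℝ ℝ +
        cl (p 0) (T (p 0) (ph ε (p 1 - ξ))) • ContinuousLinearMap.snd ℝ ℝ ℝ).comp
        (e0.prod (ph' ε (p 1 - ξ) • e1)) := by
    apply ContinuousLinearMap.ext
    intro v
    simp [al, bt]
    ring
  rw [e]
  exact h3

lemma fe_contDiff {ε : ℝ} (hε : 0 < ε) (ξ : ℝ) : ContDiff ℝ 1 (fe ε ξ) := by
  rw [contDiff_one_iff_fderiv]
  refine ⟨fun p => (fe_hasFDeriv hε ξ p).differentiableAt, ?_⟩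
  have e : fderiv ℝ (fe ε ξ) = fun p => al ε ξ p • e0 + bt ε ξ p • e1 := by
    ext1 p
    exact (fe_hasFDeriv hε ξ p).fderiv
  rw [e]
  have h0 : Continuous (fun p : E2 => p 0) := e0.continuous
  have h1 : Continuous (fun p : E2 => p 1 - ξ) := e1.continuous.sub continuous_const
  have hT : Continuous (fun p : E2 => T (p 0) (ph ε (p 1 - ξ))) :=
    T_comp_cont h0 ((ph_cont hε).comp h1) (fun p => ph_pos hε _)
  have ha : Continuous (al ε ξ) := ((rho_cont.comp h0).mul (th_cont.comp hT)).neg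
  have hb : Continuous (bt ε ξ) :=
    (cl_cont.comp (h0.prodMk hT)).mul ((ph'_cont hε).comp h1)
  exact (ha.smul continuous_const).add (hb.smul continuous_const)

lemma cs_aux {a b x y : ℝ} (h : a ^ 2 + b ^ 2 ≤ 1) : |a * x + b * y| ≤ √(x ^ 2 + y ^ 2) := by
  apply Real.abs_le_sqrt
  nlinarith [sq_nonneg (a * y - b * x), sq_nonneg x, sq_nonneg y,
    mul_nonneg (sub_nonneg.2 h) (add_nonneg (sq_nonneg x) (sq_nonneg y))]

lemma fe_grad {ε : ℝ} (hε : 0 < ε) (ξ : ℝ) (p v : E2) :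
    |fderiv ℝ (fe ε ξ) p v| ≤ nrm D0 (p 0) v := by
  rw [(fe_hasFDeriv hε ξ p).fderiv, nrm_D0]
  set τ := T (p 0) (ph ε (p 1 - ξ)) with hτ
  have e : (al ε ξ p • e0 + bt ε ξ p • e1) v =
      (-(th τ)) * (rho (p 0) * v 0) + (ph' ε (p 1 - ξ) / cosh τ) * (exp (-(p 0)) * v 1) := by
    simp [al, bt, e0, e1, cl, ← hτ]
    ring
  rw [e]
  apply cs_aux
  rw [neg_sq, th_sq, div_pow]
  obtain ⟨h1, h2⟩ := ph'_bound hε (p 1 - ξ)
  have hc := Real.cosh_pos τ
  have h3 : ph' ε (p 1 - ξ) ^ 2 ≤ 1 := by nlinarith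
  have h4 : ph' ε (p 1 - ξ) ^ 2 / cosh τ ^ 2 ≤ 1 / cosh τ ^ 2 := by gcongr
  linarith

lemma ph_tendsto (y : ℝ) : Tendsto (fun ε => ph ε y) (𝓝[>] 0) (𝓝 (max y 0)) := by
  have hc : Continuous (fun ε => ph ε y) := by
    unfold ph; fun_prop
  have h := (hc.tendsto 0).mono_left (nhdsWithin_le_nhds (s := Ioi (0:ℝ)))
  have e : ph 0 y = max y 0 := by
    unfold ph
    rw [zero_pow two_ne_zero, add_zero, Real.sqrt_sq_eq_abs]
    rcases le_total 0 y with h | h
    · rw [abs_of_nonneg h, max_eq_left h]; ring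
    · rw [abs_of_nonpos h, max_eq_right h]; ring
  rw [e] at h
  exact h

/-- the extended Busemann functions are 1-Lipschitz -/
lemma bp_lip (ξ : ℝ) (p q : X) :
    |bp ((show E2 from q) 0) ((show E2 from q) 1 - ξ) -
      bp ((show E2 from p) 0) ((show E2 from p) 1 - ξ)| ≤ dist p q := by
  have hlim : ∀ z y : ℝ, Tendsto (fun ε => bh z (ph ε y)) (𝓝[>] 0) (𝓝 (bp z y)) := by
    intro z y
    have h1 : Tendsto (fun ε => bp z (ph ε y)) (𝓝[>] 0) (𝓝 (bp z (max y 0))) :=
      ((bp_cont z).tendsto _).comp (ph_tendsto y)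
    have e : bp z (max y 0) = bp z y := by
      rcases le_total 0 y with h | h
      · rw [max_eq_left h]
      · rw [max_eq_right h, bp_nonpos h]
    rw [e] at h1
    apply h1.congr'
    filter_upwards [self_mem_nhdsWithin] with ε hε
    exact bp_eq (ph_pos hε _)
  have h := ((hlim ((show E2 from q) 0) ((show E2 from q) 1 - ξ)).sub
    (hlim ((show E2 from p) 0) ((show E2 from p) 1 - ξ))).abs
  apply le_of_tendsto h
  filter_upwards [self_mem_nhdsWithin] with ε hε
  exact le_dist D0 (fe ε ξ) (fe_contDiff hε ξ) (fe_grad hε ξ) p q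

end Pool.Agent.H.MP_92a93b_gt
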