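import Pool.Agent.H.MP_92a93b_gt.Loc

set_option autoImplicit false
open Filter Topology Set MeasureTheory Function Real
open scoped ContDiff

namespace Pool.Agent.H.MP_92a93b_gt

noncomputable def uu (p : E2) : ℝ := 1 + (p 1) ^ 2 + exp (2 * p 0)

lemma uu_pos (p : E2) : 0 < uu p := by
  unfold uu
  have := Real.exp_pos (2 * p 0)
  have := sq_nonneg (p 1)
  positivity

lemma uu_hasFDeriv (p : E2) : HasFDerivAt uu ((2 * p 1) • e1 + (2 * exp (2 * p 0)) • e0) p := by
  have h0 : HasFDerivAt (fun p : E2 => p 0) e0 p := e0.hasFDerivAt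
  have h1 : HasFDerivAt (fun p : E2 => p 1) e1 p := e1.hasFDerivAt
  have h2 : HasFDerivAt (fun p : E2 => (p 1) ^ 2) ((2 * p 1) • e1) p := by
    have hsq : HasDerivAt (fun x : ℝ => x ^ 2) (2 * p 1) (p 1) := by
      simpa using hasDerivAt_pow 2 (p 1)
    exact HasDerivAt.comp_hasFDerivAt (h₂ := fun x : ℝ => x ^ 2) (f := fun p : E2 => p 1) p
      hsq h1
  have h3 : HasFDerivAt (fun p : E2 => exp (2 * p 0)) ((2 * exp (2 * p 0)) • e0) p := by
    have h4 : HasDerivAt (fun x : ℝ => exp (2 * x)) (2 * exp (2 * p 0)) (p 0) := by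
      have := ((hasDerivAt_id (p 0)).const_mul 2).exp
      refine this.congr_deriv ?_
      simp only [id]
      ring
    exact HasDerivAt.comp_hasFDerivAt (h₂ := fun x : ℝ => exp (2 * x))
      (f := fun p : E2 => p 0) p h4 h0
  have h5 := (h2.const_add 1).add h3
  exact h5

/-- a proper function of gradient at most one -/
noncomputable def ff (p : E2) : ℝ := (1 / 50) * Real.log (uu p)

lemma ff_hasFDeriv (p : E2) : HasFDerivAt ff
    ((1 / 50 : ℝ) • ((uu p)⁻¹ • ((2 * p 1) • e1 + (2 * exp (2 * p 0)) • e0))) p :=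
  ((uu_hasFDeriv p).log (uu_pos p).ne').const_mul (1 / 50)

lemma ff_contDiff : ContDiff ℝ 1 ff := by
  unfold ff
  apply contDiff_const.mul
  apply ContDiff.log
  · unfold uu
    have h0 : ContDiff ℝ 1 (fun p : E2 => p 0) := e0.contDiff
    have h1 : ContDiff ℝ 1 (fun p : E2 => p 1) := e1.contDiff
    exact (contDiff_const.add (h1.pow 2)).add (Real.contDiff_exp.comp (contDiff_const.mul h0))
  · intro p; exact (uu_pos p).ne'

lemma ff_grad (p v : E2) : |fderiv ℝ ff p v| ≤ nrm D0 (p 0) v := by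
  rw [(ff_hasFDeriv p).fderiv, nrm_D0]
  have hu := uu_pos p
  have hr := rho_pos (p 0)
  have hr2 := rho_ge (p 0)
  have he := Real.exp_pos (p 0)
  have hee : exp (2 * p 0) = exp (p 0) * exp (p 0) := by rw [← Real.exp_add]; congr 1; ring
  have hen : exp (-(p 0)) = (exp (p 0))⁻¹ := Real.exp_neg _
  set E := exp (p 0) with hE
  have huE : E * E ≤ uu p := by
    unfold uu; rw [hee]; nlinarith [sq_nonneg (p 1)]
  have huy : 2 * |p 1| * E ≤ uu p := by
    unfold uu; rw [hee]
    nlinarith [sq_nonneg (|p 1| - E), sq_abs (p 1)]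
  have e : ((1 / 50 : ℝ) • ((uu p)⁻¹ • ((2 * p 1) • e1 + (2 * exp (2 * p 0)) • e0))) v =
      (2 * (E * E) / (50 * uu p * rho (p 0))) * (rho (p 0) * v 0) +
      (2 * p 1 * E / (50 * uu p)) * (exp (-(p 0)) * v 1) := by
    rw [hen]
    simp [e0, e1, hee]
    field_simp
    ring
  rw [e]
  apply cs_aux
  have ha0 : 0 ≤ 2 * (E * E) / (50 * uu p * rho (p 0)) := by positivity
  have ha : 2 * (E * E) / (50 * uu p * rho (p 0)) ≤ 4 / 5 := by
    rw [div_le_div_iff₀ (by positivity) (by norm_num)]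
    have : uu p * (1 / 20) ≤ uu p * rho (p 0) := by gcongr
    nlinarith
  have hb : |2 * p 1 * E / (50 * uu p)| ≤ 1 / 50 := by
    rw [abs_div, abs_of_pos (by positivity : 0 < 50 * uu p), abs_mul, abs_mul, abs_two,
      abs_of_pos he, div_le_div_iff₀ (by positivity) (by norm_num)]
    nlinarith
  have hb2 : (2 * p 1 * E / (50 * uu p)) ^ 2 ≤ (1 / 50) ^ 2 := by
    rw [← sq_abs]; gcongr
  have ha2 : (2 * (E * E) / (50 * uu p * rho (p 0))) ^ 2 ≤ (4 / 5) ^ 2 := by gcongr
  linarith

lemma compact_box (a b : ℝ) : IsCompact {q : E2 | |q 0| ≤ a ∧ |q 1| ≤ b} := by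
  apply Metric.isCompact_of_isClosed_isBounded
  · have h0 : Continuous (fun p : E2 => |p 0|) := e0.continuous.abs
    have h1 : Continuous (fun p : E2 => |p 1|) := e1.continuous.abs
    exact (isClosed_le h0 continuous_const).inter (isClosed_le h1 continuous_const)
  · rw [isBounded_iff_forall_norm_le]
    refine ⟨|a| + |b|, ?_⟩
    rintro q ⟨h0, h1⟩
    rw [EuclideanSpace.norm_eq]
    apply Real.sqrt_le_iff.2
    refine ⟨by positivity, ?_⟩
    simp only [Fin.sum_univ_two, Real.norm_eq_abs, sq_abs]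
    have h2 : |q 0| ≤ |a| := h0.trans (le_abs_self a)
    have h3 : |q 1| ≤ |b| := h1.trans (le_abs_self b)
    have h4 : (q 0) ^ 2 ≤ |a| ^ 2 := by rw [← sq_abs]; gcongr
    have h5 : (q 1) ^ 2 ≤ |b| ^ 2 := by rw [← sq_abs]; gcongr
    nlinarith [abs_nonneg a, abs_nonneg b, mul_nonneg (abs_nonneg a) (abs_nonneg b)]

lemma compact_box' (a b : ℝ) : IsCompact {q : X | |zc q| ≤ a ∧ |yc q| ≤ b} := compact_box a b

instance : ProperSpace X := by
  refine ⟨fun p R => ?_⟩
  rcases lt_or_ge R 0 with hR | hR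
  · rw [Metric.closedBall_eq_empty.2 hR]; exact isCompact_empty
  set A := 20 * (|XX (zc p)| + R) with hA
  set B := exp (50 * (ff (show E2 from p) + R)) with hB
  apply (compact_box' A B).of_isClosed_subset Metric.isClosed_closedBall
  intro q hq
  have hd : dist p q ≤ R := by rw [dist_comm]; exact hq
  constructor
  · have h1 := XX_lip p q
    have h2 := XX_abs (zc q) 0
    rw [XX_zero, sub_zero, sub_zero] at h2
    have h3 : |XX (zc q)| ≤ |XX (zc p)| + R := by
      have := abs_sub_abs_le_abs_sub (XX (zc q)) (XX (zc p))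
      linarith
    rw [hA]
    linarith
  · have h1 := le_dist D0 ff ff_contDiff ff_grad p q
    have h2 : ff (show E2 from q) ≤ ff (show E2 from p) + R := by
      have := le_abs_self (ff (show E2 from q) - ff (show E2 from p))
      linarith
    have h3 : Real.log (uu (show E2 from q)) ≤ 50 * (ff (show E2 from p) + R) := by
      have : ff (show E2 from q) = (1 / 50) * Real.log (uu (show E2 from q)) := rfl
      rw [this] at h2
      linarith
    have h4 : uu (show E2 from q) ≤ B := by
      rw [hB, ← Real.log_le_iff_le_exp (uu_pos _)]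
      exact h3
    have h5 : |yc q| ≤ uu (show E2 from q) := by
      have e : uu (show E2 from q) = 1 + (yc q) ^ 2 + exp (2 * zc q) := rfl
      rw [e]
      have h6 := Real.exp_pos (2 * zc q)
      nlinarith [sq_nonneg (|yc q| - 1), sq_abs (yc q)]
    exact h5.trans h4

instance : CompleteSpace X := inferInstance

end Pool.Agent.H.MP_92a93b_gt
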