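import Pool.Agent.H.MP_92a93b_gt.ParamInt

set_option autoImplicit false
open Filter Topology Set MeasureTheory Function Real
open scoped ContDiff

namespace Pool.Agent.H.MP_92a93b_gt

/-- the weight function: equal to 1 outside [1,5], to 0 on [2,4] -/
noncomputable def eta (s : ℝ) : ℝ :=
  1 - Real.smoothTransition (s - 1) * Real.smoothTransition (5 - s)

lemma eta_smooth : ContDiff ℝ ∞ eta := by
  unfold eta
  apply contDiff_const.sub
  apply ContDiff.mul
  · exact Real.smoothTransition.contDiff.comp (contDiff_id.sub contDiff_const)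
  · exact Real.smoothTransition.contDiff.comp (contDiff_const.sub contDiff_id)

lemma eta_cont : Continuous eta := eta_smooth.continuous

lemma eta_nonneg (s : ℝ) : 0 ≤ eta s := by
  unfold eta
  have h1 := Real.smoothTransition.nonneg (s - 1)
  have h2 := Real.smoothTransition.le_one (s - 1)
  have h3 := Real.smoothTransition.nonneg (5 - s)
  have h4 := Real.smoothTransition.le_one (5 - s)
  nlinarith

lemma eta_le_one (s : ℝ) : eta s ≤ 1 := by
  unfold eta
  have h1 := Real.smoothTransition.nonneg (s - 1)
  have h3 := Real.smoothTransition.nonneg (5 - s)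
  have := mul_nonneg h1 h3
  linarith

lemma eta_of_le {s : ℝ} (h : s ≤ 1) : eta s = 1 := by
  unfold eta
  rw [Real.smoothTransition.zero_of_nonpos (by linarith)]
  ring

lemma eta_of_ge {s : ℝ} (h : 5 ≤ s) : eta s = 1 := by
  unfold eta
  rw [Real.smoothTransition.zero_of_nonpos (x := 5 - s) (by linarith)]
  ring

lemma eta_mid {s : ℝ} (h1 : 2 ≤ s) (h2 : s ≤ 4) : eta s = 0 := by
  unfold eta
  rw [Real.smoothTransition.one_of_one_le (by linarith),
    Real.smoothTransition.one_of_one_le (by linarith)]
  ring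

/-- primitive of eta -/
noncomputable def EE (x : ℝ) : ℝ := ∫ s in (0:ℝ)..x, eta s

lemma EE_deriv (x : ℝ) : HasDerivAt EE (eta x) x :=
  (eta_cont.integral_hasStrictDerivAt 0 x).hasDerivAt

lemma EE_zero : EE 0 = 0 := by simp [EE]

lemma EE_mono : Monotone EE :=
  monotone_of_hasDerivAt_nonneg EE_deriv eta_nonneg

lemma EE_mid {s : ℝ} (h1 : 2 ≤ s) (h2 : s ≤ 4) : EE s = EE 2 := by
  have : EE s - EE 2 = ∫ x in (2:ℝ)..s, eta x := by
    unfold EE
    rw [intervalIntegral.integral_interval_sub_left] <;> exact eta_cont.intervalIntegrable _ _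
  have h : ∫ x in (2:ℝ)..s, eta x = ∫ x in (2:ℝ)..s, 0 := by
    apply intervalIntegral.integral_congr
    intro x hx
    rw [uIcc_of_le h1] at hx
    exact eta_mid hx.1 (hx.2.trans h2)
  rw [h, intervalIntegral.integral_zero] at this
  linarith

lemma EE_ge (x : ℝ) (hx : 5 ≤ x) : x - 5 ≤ EE x := by
  have h5 : 0 ≤ EE 5 := by
    rw [← EE_zero]; exact EE_mono (by norm_num)
  have : EE x - EE 5 = ∫ x in (5:ℝ)..x, eta x := by
    unfold EE
    rw [intervalIntegral.integral_interval_sub_left] <;> exact eta_cont.intervalIntegrable _ _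
  have h : ∫ x in (5:ℝ)..x, eta x = ∫ x in (5:ℝ)..x, 1 := by
    apply intervalIntegral.integral_congr
    intro y hy
    rw [uIcc_of_le hx] at hy
    exact eta_of_ge hy.1
  rw [h, intervalIntegral.integral_const] at this
  simp at this
  linarith

/-- The coefficient. -/
noncomputable def rho (z : ℝ) : ℝ := (2 / π) * ∫ θ in (0:ℝ)..(π / 2), eta (exp z * sin θ)

lemma rho_smooth : ContDiff ℝ ∞ rho := by
  unfold rho
  apply contDiff_const.mul
  apply contDiff_pi 0 (π / 2) (fun z θ => eta (exp z * sin θ))
  have : (uncurry fun z θ => eta (exp z * sin θ)) = fun p : ℝ × ℝ => eta (exp p.1 * sin p.2) := by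
    ext p; rfl
  rw [this]
  apply eta_smooth.comp
  fun_prop

lemma integrand_cont (z : ℝ) : Continuous (fun θ => eta (exp z * sin θ)) :=
  eta_cont.comp (by fun_prop)

lemma rho_le_one (z : ℝ) : rho z ≤ 1 := by
  unfold rho
  have h : ∫ θ in (0:ℝ)..(π / 2), eta (exp z * sin θ) ≤ ∫ θ in (0:ℝ)..(π / 2), (1:ℝ) := by
    apply intervalIntegral.integral_mono_on (by positivity)
      ((integrand_cont z).intervalIntegrable _ _) (intervalIntegrable_const)
    intro x _
    exact eta_le_one _
  rw [intervalIntegral.integral_const] at h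
  simp only [sub_zero, smul_eq_mul, mul_one] at h
  have hpi := Real.pi_pos
  calc 2 / π * ∫ θ in (0:ℝ)..(π / 2), eta (exp z * sin θ) ≤ 2 / π * (π / 2) := by
        gcongr
    _ = 1 := by field_simp

lemma rho_ge (z : ℝ) : 1 / 20 ≤ rho z := by
  have hpi := Real.pi_pos
  have hpi3 := Real.pi_gt_three
  have hpi4 := Real.pi_lt_d2
  have key : 1 / 10 ≤ ∫ θ in (0:ℝ)..(π / 2), eta (exp z * sin θ) := by
    have hint := fun a b => (integrand_cont z).intervalIntegrable (μ := volume) a b
    rcases le_total (exp z) 10 with h | h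
    · have h1 : ∫ θ in (0:ℝ)..(π / 2), eta (exp z * sin θ) =
          (∫ θ in (0:ℝ)..(1/10), eta (exp z * sin θ)) +
          ∫ θ in (1/10:ℝ)..(π / 2), eta (exp z * sin θ) :=
        (intervalIntegral.integral_add_adjacent_intervals (hint _ _) (hint _ _)).symm
      have h2 : ∫ θ in (0:ℝ)..(1/10), eta (exp z * sin θ) = ∫ θ in (0:ℝ)..(1/10), (1:ℝ) := by
        apply intervalIntegral.integral_congr
        intro θ hθ
        rw [uIcc_of_le (by norm_num)] at hθ
        apply eta_of_le
        have hs : sin θ ≤ θ := Real.sin_le hθ.1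
        have : exp z * sin θ ≤ 10 * (1/10) := by
          have h0 : 0 ≤ sin θ := Real.sin_nonneg_of_nonneg_of_le_pi hθ.1 (by linarith [hθ.2])
          exact mul_le_mul h (hs.trans hθ.2) h0 (by norm_num)
        linarith
      have h3 : 0 ≤ ∫ θ in (1/10:ℝ)..(π / 2), eta (exp z * sin θ) := by
        apply intervalIntegral.integral_nonneg (by linarith)
        intro u _
        exact eta_nonneg _
      rw [h1, h2, intervalIntegral.integral_const]
      simp only [smul_eq_mul, mul_one, sub_zero]
      linarith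
    · have h1 : ∫ θ in (0:ℝ)..(π / 2), eta (exp z * sin θ) =
          (∫ θ in (0:ℝ)..(π/6), eta (exp z * sin θ)) +
          ∫ θ in (π/6:ℝ)..(π / 2), eta (exp z * sin θ) :=
        (intervalIntegral.integral_add_adjacent_intervals (hint _ _) (hint _ _)).symm
      have h2 : ∫ θ in (π/6:ℝ)..(π/2), eta (exp z * sin θ) = ∫ θ in (π/6:ℝ)..(π/2), (1:ℝ) := by
        apply intervalIntegral.integral_congr
        intro θ hθ
        rw [uIcc_of_le (by linarith)] at hθ
        apply eta_of_ge
        have hs : 1 / 2 ≤ sin θ := by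
          rw [← Real.sin_pi_div_six]
          apply Real.sin_le_sin_of_le_of_le_pi_div_two (by linarith) hθ.2 hθ.1
        nlinarith
      have h3 : 0 ≤ ∫ θ in (0:ℝ)..(π/6), eta (exp z * sin θ) := by
        apply intervalIntegral.integral_nonneg (by positivity)
        intro u _
        exact eta_nonneg _
      rw [h1, h2, intervalIntegral.integral_const]
      simp only [smul_eq_mul, mul_one]
      linarith
  unfold rho
  calc (1:ℝ) / 20 ≤ 2 / π * (1 / 10) := by
        rw [div_mul_div_comm, div_le_div_iff₀ (by norm_num) (by positivity)]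
        linarith
    _ ≤ _ := by gcongr

lemma rho_pos (z : ℝ) : 0 < rho z := lt_of_lt_of_le (by norm_num) (rho_ge z)

lemma rho_cont : Continuous rho := rho_smooth.continuous

end Pool.Agent.H.MP_92a93b_gt
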