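import Pool.Agent.H.MP_92a93b_gt.Eta

set_option autoImplicit false
open Filter Topology Set MeasureTheory Function Real
open scoped ContDiff

namespace Pool.Agent.H.MP_92a93b_gt

/-- log cosh -/
noncomputable def lc (x : ℝ) : ℝ := Real.log (Real.cosh x)
/-- tanh -/
noncomputable def th (x : ℝ) : ℝ := Real.sinh x / Real.cosh x

lemma lc_deriv (x : ℝ) : HasDerivAt lc (th x) x :=
  (Real.hasDerivAt_cosh x).log (Real.cosh_pos x).ne'

lemma th_deriv (x : ℝ) : HasDerivAt th (1 / cosh x ^ 2) x := by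
  have h := (Real.hasDerivAt_sinh x).div (Real.hasDerivAt_cosh x) (Real.cosh_pos x).ne'
  refine h.congr_deriv ?_
  have := Real.cosh_sq x
  congr 1
  nlinarith

lemma lc_cont : Continuous lc := continuous_iff_continuousAt.2 fun x => (lc_deriv x).continuousAt
lemma th_cont : Continuous th := continuous_iff_continuousAt.2 fun x => (th_deriv x).continuousAt

lemma lc_zero : lc 0 = 0 := by simp [lc]
lemma th_zero : th 0 = 0 := by simp [th]
lemma lc_neg (x : ℝ) : lc (-x) = lc x := by simp [lc]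
lemma th_neg (x : ℝ) : th (-x) = - th x := by simp [th, neg_div]

lemma lc_nonneg (x : ℝ) : 0 ≤ lc x := Real.log_nonneg (Real.one_le_cosh x)

lemma exp_lc (x : ℝ) : exp (lc x) = cosh x := Real.exp_log (Real.cosh_pos x)

lemma th_sq (x : ℝ) : th x ^ 2 = 1 - 1 / cosh x ^ 2 := by
  unfold th
  have h := (Real.cosh_pos x).ne'
  have := Real.cosh_sq x
  field_simp
  linarith

lemma abs_th_lt (x : ℝ) : |th x| < 1 := by
  rw [← sq_lt_one_iff_abs_lt_one, th_sq]
  have := Real.cosh_pos x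
  have : 0 < 1 / cosh x ^ 2 := by positivity
  linarith

lemma th_lt_one (x : ℝ) : th x < 1 := (abs_lt.1 (abs_th_lt x)).2
lemma neg_one_lt_th (x : ℝ) : -1 < th x := (abs_lt.1 (abs_th_lt x)).1

/-- the derivative of rho -/
noncomputable def rho' (z : ℝ) : ℝ := deriv rho z

lemma rho_deriv (z : ℝ) : HasDerivAt rho (rho' z) z :=
  (rho_smooth.differentiable (by simp) z).hasDerivAt

lemma rho'_cont : Continuous rho' := rho_smooth.continuous_deriv (by simp)

/-- arclength from the turning point -/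
noncomputable def SS (a τ : ℝ) : ℝ := ∫ x in (0:ℝ)..τ, rho (a - lc x)
noncomputable def SS1 (a τ : ℝ) : ℝ := ∫ x in (0:ℝ)..τ, rho' (a - lc x)
noncomputable def be (a : ℝ) : ℝ := ∫ x in (0:ℝ)..a, eta (exp x)
noncomputable def bB (a τ : ℝ) : ℝ := be a + SS a τ
noncomputable def bB1 (a τ : ℝ) : ℝ := eta (exp a) + SS1 a τ
noncomputable def PP (a τ : ℝ) : ℝ :=
  EE (exp a) + exp a * ∫ x in (0:ℝ)..τ, rho (a - lc x) / cosh x ^ 2
noncomputable def PP1 (a τ : ℝ) : ℝ := exp a * (bB1 a τ + rho (a - lc τ) * th τ)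
noncomputable def PP2 (a τ : ℝ) : ℝ := exp a * (rho (a - lc τ) / cosh τ ^ 2)

lemma cont_a {g : ℝ → ℝ} (hg : Continuous g) : Continuous (uncurry fun a x => g (a - lc x)) := by
  have : (uncurry fun a x => g (a - lc x)) = fun p : ℝ × ℝ => g (p.1 - lc p.2) := by ext p; rfl
  rw [this]
  exact hg.comp (continuous_fst.sub (lc_cont.comp continuous_snd))

lemma cont_b {g : ℝ → ℝ} (hg : Continuous g) :
    Continuous (uncurry fun a x => g (a - lc x) / cosh x ^ 2) := by
  have : (uncurry fun a x => g (a - lc x) / cosh x ^ 2) =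
    fun p : ℝ × ℝ => g (p.1 - lc p.2) / cosh p.2 ^ 2 := by ext p; rfl
  rw [this]
  apply Continuous.div
  · exact hg.comp (continuous_fst.sub (lc_cont.comp continuous_snd))
  · exact (Real.continuous_cosh.comp continuous_snd).pow 2
  · intro p; exact (pow_pos (Real.cosh_pos _) 2).ne'

lemma cont_a' {g : ℝ → ℝ} (hg : Continuous g) (a : ℝ) : Continuous (fun x => g (a - lc x)) :=
  hg.comp (continuous_const.sub lc_cont)

lemma cont_b' {g : ℝ → ℝ} (hg : Continuous g) (a : ℝ) :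
    Continuous (fun x => g (a - lc x) / cosh x ^ 2) := by
  apply (cont_a' hg a).div (Real.continuous_cosh.pow 2)
  intro p; exact (pow_pos (Real.cosh_pos _) 2).ne'

lemma rho_a_deriv (a x : ℝ) : HasDerivAt (fun a => rho (a - lc x)) (rho' (a - lc x)) a := by
  have := (rho_deriv (a - lc x)).comp a ((hasDerivAt_id a).sub_const (lc x))
  rw [mul_one] at this
  exact this

lemma rho_x_deriv (a x : ℝ) :
    HasDerivAt (fun x => rho (a - lc x)) (- (rho' (a - lc x) * th x)) x := by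
  have := (rho_deriv (a - lc x)).comp x ((lc_deriv x).const_sub a)
  rw [mul_neg] at this
  exact this

lemma SS_deriv1 (a τ : ℝ) : HasDerivAt (fun a => SS a τ) (SS1 a τ) a :=
  hasDerivAt_pi' 0 τ (cont_a rho_cont) (cont_a rho'_cont) (fun z θ => rho_a_deriv z θ) a

lemma SS_deriv2 (a τ : ℝ) : HasDerivAt (fun τ => SS a τ) (rho (a - lc τ)) τ :=
  ((cont_a' rho_cont a).integral_hasStrictDerivAt 0 τ).hasDerivAt

lemma be_deriv (a : ℝ) : HasDerivAt be (eta (exp a)) a :=
  ((eta_cont.comp Real.continuous_exp).integral_hasStrictDerivAt 0 a).hasDerivAt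

lemma bB_deriv1 (a τ : ℝ) : HasDerivAt (fun a => bB a τ) (bB1 a τ) a :=
  (be_deriv a).add (SS_deriv1 a τ)

lemma bB_deriv2 (a τ : ℝ) : HasDerivAt (fun τ => bB a τ) (rho (a - lc τ)) τ := by
  have := (SS_deriv2 a τ).const_add (be a)
  exact this

/-- the integration by parts identity -/
lemma ibp (a τ : ℝ) : (∫ x in (0:ℝ)..τ, rho (a - lc x) / cosh x ^ 2) +
    (∫ x in (0:ℝ)..τ, rho' (a - lc x) / cosh x ^ 2) = SS1 a τ + rho (a - lc τ) * th τ := by
  have h : ∀ x, HasDerivAt (fun x => rho (a - lc x) * th x)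
      (rho (a - lc x) / cosh x ^ 2 + rho' (a - lc x) / cosh x ^ 2 - rho' (a - lc x)) x := by
    intro x
    have := (rho_x_deriv a x).mul (th_deriv x)
    refine this.congr_deriv ?_
    have h2 := th_sq x
    have h3 : rho' (a - lc x) * th x * th x = rho' (a - lc x) * (th x ^ 2) := by ring
    rw [neg_mul, h3, h2]
    ring
  have hi1 : IntervalIntegrable (fun x => rho (a - lc x) / cosh x ^ 2) volume 0 τ :=
    (cont_b' rho_cont a).intervalIntegrable _ _
  have hi2 : IntervalIntegrable (fun x => rho' (a - lc x) / cosh x ^ 2) volume 0 τ :=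
    (cont_b' rho'_cont a).intervalIntegrable _ _
  have hi3 : IntervalIntegrable (fun x => rho' (a - lc x)) volume 0 τ :=
    (cont_a' rho'_cont a).intervalIntegrable _ _
  have key := intervalIntegral.integral_eq_sub_of_hasDerivAt (fun x (_ : x ∈ uIcc 0 τ) => h x)
    ((hi1.add hi2).sub hi3)
  rw [intervalIntegral.integral_sub (hi1.add hi2) hi3, intervalIntegral.integral_add hi1 hi2] at key
  rw [th_zero, mul_zero, sub_zero] at key
  unfold SS1
  linarith

lemma PP_deriv1 (a τ : ℝ) : HasDerivAt (fun a => PP a τ) (PP1 a τ) a := by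
  have h1 : HasDerivAt (fun a => EE (exp a)) (eta (exp a) * exp a) a :=
    (EE_deriv (exp a)).comp a (Real.hasDerivAt_exp a)
  have h2 : HasDerivAt (fun a => ∫ x in (0:ℝ)..τ, rho (a - lc x) / cosh x ^ 2)
      (∫ x in (0:ℝ)..τ, rho' (a - lc x) / cosh x ^ 2) a :=
    hasDerivAt_pi' 0 τ (cont_b rho_cont) (cont_b rho'_cont)
      (fun z θ => (rho_a_deriv z θ).div_const _) a
  have h3 := h1.add ((Real.hasDerivAt_exp a).mul h2)
  refine h3.congr_deriv ?_
  unfold PP1 bB1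
  have := ibp a τ
  have e : eta (rexp a) + SS1 a τ + rho (a - lc τ) * th τ = eta (rexp a) +
    ((∫ x in (0:ℝ)..τ, rho (a - lc x) / cosh x ^ 2) +
    (∫ x in (0:ℝ)..τ, rho' (a - lc x) / cosh x ^ 2)) := by rw [this]; ring
  rw [e]
  ring

lemma PP_deriv2 (a τ : ℝ) : HasDerivAt (fun τ => PP a τ) (PP2 a τ) τ := by
  have h := (((cont_b' rho_cont a).integral_hasStrictDerivAt 0 τ).hasDerivAt.const_mul
    (exp a)).const_add (EE (exp a))
  exact h

lemma SS1_cont : Continuous (uncurry SS1) :=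
  intervalIntegral.continuous_parametric_intervalIntegral_of_continuous
    (f := fun (p : ℝ × ℝ) x => rho' (p.1 - lc x))
    (by
      have : (uncurry fun (p : ℝ × ℝ) x => rho' (p.1 - lc x)) =
        fun q : (ℝ × ℝ) × ℝ => rho' (q.1.1 - lc q.2) := by ext q; rfl
      rw [this]
      exact rho'_cont.comp ((continuous_fst.comp continuous_fst).sub
        (lc_cont.comp continuous_snd))) continuous_snd

lemma bB1_cont : Continuous (uncurry bB1) := by
  have : uncurry bB1 = fun p : ℝ × ℝ => eta (exp p.1) + uncurry SS1 p := by ext p; rfl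
  rw [this]
  exact (eta_cont.comp (Real.continuous_exp.comp continuous_fst)).add SS1_cont

lemma bB2_cont : Continuous (uncurry fun a τ => rho (a - lc τ)) := cont_a rho_cont

lemma PP1_cont : Continuous (uncurry PP1) := by
  have : uncurry PP1 = fun p : ℝ × ℝ => exp p.1 * (uncurry bB1 p + rho (p.1 - lc p.2) * th p.2) := by
    ext p; rfl
  rw [this]
  exact (Real.continuous_exp.comp continuous_fst).mul (bB1_cont.add
    ((cont_a rho_cont).mul (th_cont.comp continuous_snd)))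

lemma PP2_cont : Continuous (uncurry PP2) := by
  have : uncurry PP2 = fun p : ℝ × ℝ => exp p.1 * (rho (p.1 - lc p.2) / cosh p.2 ^ 2) := by
    ext p; rfl
  rw [this]
  exact (Real.continuous_exp.comp continuous_fst).mul (cont_b rho_cont)

/-- the family in coordinates (z, τ) -/
noncomputable def F (z τ : ℝ) : ℝ := PP (z + lc τ) τ
noncomputable def W (z τ : ℝ) : ℝ := bB (z + lc τ) τ
noncomputable def F1 (z τ : ℝ) : ℝ := PP1 (z + lc τ) τ
noncomputable def F2 (z τ : ℝ) : ℝ := PP1 (z + lc τ) τ * th τ + PP2 (z + lc τ) τ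
noncomputable def W1 (z τ : ℝ) : ℝ := bB1 (z + lc τ) τ
noncomputable def W2 (z τ : ℝ) : ℝ := bB1 (z + lc τ) τ * th τ + rho z

lemma shift_hasFDeriv (p : ℝ × ℝ) : HasFDerivAt (fun p : ℝ × ℝ => (p.1 + lc p.2, p.2))
    ((ContinuousLinearMap.fst ℝ ℝ ℝ + th p.2 • ContinuousLinearMap.snd ℝ ℝ ℝ).prod
      (ContinuousLinearMap.snd ℝ ℝ ℝ)) p := by
  apply HasFDerivAt.prodMk
  · apply hasFDerivAt_fst.add
    exact (lc_deriv p.2).comp_hasFDerivAt p hasFDerivAt_snd
  · exact hasFDerivAt_snd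

lemma F_hasFDeriv (p : ℝ × ℝ) : HasFDerivAt (uncurry F)
    (F1 p.1 p.2 • ContinuousLinearMap.fst ℝ ℝ ℝ + F2 p.1 p.2 • ContinuousLinearMap.snd ℝ ℝ ℝ) p := by
  have h := (hasFDerivAt_partials PP_deriv1 PP_deriv2 PP1_cont PP2_cont
    (p.1 + lc p.2, p.2)).comp p (shift_hasFDeriv p)
  have e : (F1 p.1 p.2 • ContinuousLinearMap.fst ℝ ℝ ℝ +
      F2 p.1 p.2 • ContinuousLinearMap.snd ℝ ℝ ℝ) =
    ((PP1 (p.1 + lc p.2) p.2 • ContinuousLinearMap.fst ℝ ℝ ℝ +
      PP2 (p.1 + lc p.2) p.2 • ContinuousLinearMap.snd ℝ ℝ ℝ).comp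
      ((ContinuousLinearMap.fst ℝ ℝ ℝ + th p.2 • ContinuousLinearMap.snd ℝ ℝ ℝ).prod
      (ContinuousLinearMap.snd ℝ ℝ ℝ))) := by
    ext <;> simp [F1, F2]
  rw [e]
  exact h

lemma W_hasFDeriv (p : ℝ × ℝ) : HasFDerivAt (uncurry W)
    (W1 p.1 p.2 • ContinuousLinearMap.fst ℝ ℝ ℝ + W2 p.1 p.2 • ContinuousLinearMap.snd ℝ ℝ ℝ) p := by
  have h := (hasFDerivAt_partials bB_deriv1 bB_deriv2 bB1_cont bB2_cont
    (p.1 + lc p.2, p.2)).comp p (shift_hasFDeriv p)
  have e : (W1 p.1 p.2 • ContinuousLinearMap.fst ℝ ℝ ℝ +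
      W2 p.1 p.2 • ContinuousLinearMap.snd ℝ ℝ ℝ) =
    ((bB1 (p.1 + lc p.2) p.2 • ContinuousLinearMap.fst ℝ ℝ ℝ +
      rho ((p.1 + lc p.2) - lc p.2) • ContinuousLinearMap.snd ℝ ℝ ℝ).comp
      ((ContinuousLinearMap.fst ℝ ℝ ℝ + th p.2 • ContinuousLinearMap.snd ℝ ℝ ℝ).prod
      (ContinuousLinearMap.snd ℝ ℝ ℝ))) := by
    ext <;> simp [W1, W2]
  rw [e]
  exact h

lemma F_deriv2 (z τ : ℝ) : HasDerivAt (F z) (F2 z τ) τ := by
  have h := (F_hasFDeriv (z, τ)).comp_hasDerivAt τ ((hasDerivAt_const τ z).prodMk (hasDerivAt_id τ))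
  have e : (F1 z τ • ContinuousLinearMap.fst ℝ ℝ ℝ +
    F2 z τ • ContinuousLinearMap.snd ℝ ℝ ℝ) ((0:ℝ), (1:ℝ)) = F2 z τ := by simp
  simp only at h
  rw [e] at h
  exact h

/-- Clairaut constant -/
noncomputable def cl (z τ : ℝ) : ℝ := exp (-z) / cosh τ

lemma cl_pos (z τ : ℝ) : 0 < cl z τ := div_pos (Real.exp_pos _) (Real.cosh_pos _)

lemma cl_eq (z τ : ℝ) : cl z τ = exp (-(z + lc τ)) := by
  unfold cl
  rw [neg_add, Real.exp_add, Real.exp_neg (lc τ), exp_lc]
  rfl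

lemma rel1 (z τ : ℝ) : W1 z τ = cl z τ * F1 z τ - rho z * th τ := by
  unfold W1 F1 PP1
  rw [cl_eq, ← mul_assoc, ← Real.exp_add, add_sub_cancel_right]
  simp

lemma rel2 (z τ : ℝ) : W2 z τ = cl z τ * F2 z τ := by
  unfold W2 F2 PP1 PP2
  rw [cl_eq, mul_add, ← mul_assoc, ← mul_assoc, ← mul_assoc, ← Real.exp_add, add_sub_cancel_right]
  simp only [neg_add_cancel, exp_zero, one_mul]
  have h := th_sq τ
  have : rho z = rho z * th τ ^ 2 + rho z / cosh τ ^ 2 := by rw [h]; ring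
  nlinarith

lemma F1_cont : Continuous (uncurry F1) := by
  have : uncurry F1 = (uncurry PP1) ∘ (fun p : ℝ × ℝ => (p.1 + lc p.2, p.2)) := by ext p; rfl
  rw [this]
  exact PP1_cont.comp ((continuous_fst.add (lc_cont.comp continuous_snd)).prodMk continuous_snd)

lemma F_cont : Continuous (uncurry F) :=
  continuous_iff_continuousAt.2 fun p => (F_hasFDeriv p).continuousAt

end Pool.Agent.H.MP_92a93b_gt
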