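import Pool.Agent.H.MP_92a93b_gt.Bus

set_option autoImplicit false
open Filter Topology Set MeasureTheory Function Real
open scoped ContDiff

namespace Pool.Agent.H.MP_92a93b_gt

/-- first coordinate of a point -/
noncomputable def zc (p : X) : ℝ := (show E2 from p) 0
/-- second coordinate of a point -/
noncomputable def yc (p : X) : ℝ := (show E2 from p) 1
/-- point with given coordinates -/
noncomputable def pt (z y : ℝ) : X := (show Pl D0 from (!₂[z, y] : E2))

lemma zc_pt (z y : ℝ) : zc (pt z y) = z := by simp [zc, pt]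
lemma yc_pt (z y : ℝ) : yc (pt z y) = y := by simp [yc, pt]

lemma X_ext {p q : X} (h0 : zc p = zc q) (h1 : yc p = yc q) : p = q := by
  show (show E2 from p) = (show E2 from q)
  ext i
  fin_cases i
  · exact h0
  · exact h1

lemma pt_eta (p : X) : pt (zc p) (yc p) = p := X_ext (zc_pt _ _) (yc_pt _ _)

lemma bp_lip' (ξ : ℝ) (p q : X) :
    |bp (zc q) (yc q - ξ) - bp (zc p) (yc p - ξ)| ≤ dist p q := bp_lip ξ p q

/-- arclength along vertical lines -/
noncomputable def XX (z : ℝ) : ℝ := ∫ s in (0:ℝ)..z, rho s

lemma XX_deriv (z : ℝ) : HasDerivAt XX (rho z) z :=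
  (rho_cont.integral_hasStrictDerivAt 0 z).hasDerivAt

lemma XX_zero : XX 0 = 0 := by simp [XX]

lemma XX_strictMono : StrictMono XX := strictMono_of_hasDerivAt_pos XX_deriv rho_pos

lemma XX_cont : Continuous XX := continuous_iff_continuousAt.2 fun z => (XX_deriv z).continuousAt

lemma XX_lower {x y : ℝ} (h : x ≤ y) : (y - x) / 20 ≤ XX y - XX x := by
  have hm : Monotone (fun z => XX z - z / 20) := by
    apply monotone_of_hasDerivAt_nonneg (f' := fun z => rho z - 1 / 20)
    · intro z
      have h2 : HasDerivAt (fun z : ℝ => z / 20) (1 / 20) z := (hasDerivAt_id z).div_const 20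
      exact (XX_deriv z).sub h2
    · intro z
      have := rho_ge z
      show 0 ≤ rho z - 1 / 20
      linarith
  have := hm h
  simp only at this
  linarith

lemma XX_abs (x y : ℝ) : |x - y| ≤ 20 * |XX x - XX y| := by
  rcases le_total x y with h | h
  · have h1 := XX_lower h
    rw [abs_sub_comm x y, abs_sub_comm (XX x), abs_of_nonneg (by linarith),
      abs_of_nonneg (by linarith)]
    linarith
  · have h1 := XX_lower h
    rw [abs_of_nonneg (by linarith), abs_of_nonneg (by linarith)]
    linarith

lemma XX_tendsto_top : Tendsto XX atTop atTop := by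
  apply tendsto_atTop_mono' atTop (f₁ := fun x : ℝ => x / 20)
  · filter_upwards [eventually_ge_atTop 0] with x hx
    have := XX_lower hx
    rw [XX_zero] at this
    linarith
  · exact tendsto_id.atTop_div_const (by norm_num)

lemma XX_tendsto_bot : Tendsto XX atBot atBot := by
  have h1 : Tendsto (fun x : ℝ => x / 20) atBot atBot := tendsto_id.atBot_div_const (by norm_num)
  refine tendsto_atBot_mono' atBot ?_ h1
  filter_upwards [eventually_le_atBot 0] with x hx
  have := XX_lower hx
  rw [XX_zero] at this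
  linarith

lemma XX_surj : Surjective XX := XX_cont.surjective XX_tendsto_top XX_tendsto_bot

/-- the function XX is 1-Lipschitz -/
lemma XX_lip (p q : X) : |XX (zc q) - XX (zc p)| ≤ dist p q := by
  have hc : ContDiff ℝ 1 XX := by
    rw [contDiff_one_iff_deriv]
    refine ⟨fun z => (XX_deriv z).differentiableAt, ?_⟩
    have : deriv XX = rho := by ext z; exact (XX_deriv z).deriv
    rw [this]
    exact rho_cont
  have hf : ContDiff ℝ 1 (fun p : E2 => XX (p 0)) := hc.comp e0.contDiff
  apply le_dist D0 (fun p : E2 => XX (p 0)) hf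
  intro p v
  have h : HasFDerivAt (fun p : E2 => XX (p 0)) (rho (p 0) • e0) p :=
    HasDerivAt.comp_hasFDerivAt (h₂ := XX) (f := fun p : E2 => p 0) p (XX_deriv (p 0))
      e0.hasFDerivAt
  rw [h.fderiv, nrm_D0]
  have e : (rho (p 0) • e0) v = 1 * (rho (p 0) * v 0) + 0 * (exp (-(p 0)) * v 1) := by
    simp [e0]
  rw [e]
  apply cs_aux
  norm_num

/-- curves in coordinates -/
lemma curve_le (f g f' g' L : ℝ → ℝ) (hf : ∀ t, HasDerivAt f (f' t) t)
    (hg : ∀ t, HasDerivAt g (g' t) t) (cf : Continuous f') (cg : Continuous g')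
    (hL : ∀ t, HasDerivAt L (√((rho (f t) * f' t) ^ 2 + (exp (-(f t)) * g' t) ^ 2)) t)
    {a b : ℝ} (hab : a ≤ b) : dist (pt (f a) (g a)) (pt (f b) (g b)) ≤ L b - L a := by
  set c : ℝ → E2 := fun t => !₂[f t, g t] with hc
  have hder : ∀ t, HasDerivAt c (!₂[f' t, g' t] : E2) t := by
    intro t
    have h1 : HasDerivAt (fun t => (![f t, g t] : Fin 2 → ℝ)) (![f' t, g' t]) t := by
      rw [_root_.hasDerivAt_pi]
      intro i
      fin_cases i
      · exact hf t
      · exact hg t
    exact (PiLp.continuousLinearEquiv 2 ℝ (fun _ : Fin 2 => ℝ)).symm.hasFDerivAt.comp_hasDerivAt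
      t h1
  have hcd : ContDiff ℝ 1 c := by
    rw [contDiff_one_iff_deriv]
    refine ⟨fun t => (hder t).differentiableAt, ?_⟩
    have : deriv c = fun t => (!₂[f' t, g' t] : E2) := by ext1 t; exact (hder t).deriv
    rw [this]
    apply Continuous.comp (PiLp.continuous_toLp 2 _)
    apply continuous_pi
    intro i
    fin_cases i
    · exact cf
    · exact cg
  apply dist_le D0 c hcd L a b hab
  intro t
  rw [nrm_D0, (hder t).deriv]
  exact hL t

end Pool.Agent.H.MP_92a93b_gt
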