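import Pool.Agent.H.MP_92a93b_gt.Seg

set_option autoImplicit false
open Filter Topology Set MeasureTheory Function Real
open scoped ContDiff

namespace Pool.Agent.H.MP_92a93b_gt

/-- arclength parameter on the family -/
noncomputable def tau (a : ℝ) : ℝ ≃o ℝ :=
  ((SS_strictMono a).orderIsoOfSurjective (SS a) (SS_surj a)).symm

lemma SS_tau (a t : ℝ) : SS a (tau a t) = t :=
  ((SS_strictMono a).orderIsoOfSurjective (SS a) (SS_surj a)).apply_symm_apply t

lemma tau_SS (a τ : ℝ) : tau a (SS a τ) = τ :=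
  ((SS_strictMono a).orderIsoOfSurjective (SS a) (SS_surj a)).symm_apply_apply τ

lemma tau_deriv (a t : ℝ) : HasDerivAt (tau a) (rho (a - lc (tau a t)))⁻¹ t := by
  apply HasDerivAt.of_local_left_inverse (f := SS a)
  · exact (tau a).continuous.continuousAt
  · exact SS_deriv2 a _
  · exact (rho_pos _).ne'
  · exact Eventually.of_forall (SS_tau a)

noncomputable def XXi : ℝ ≃o ℝ := (XX_strictMono.orderIsoOfSurjective XX XX_surj).symm

lemma XX_XXi (t : ℝ) : XX (XXi t) = t :=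
  (XX_strictMono.orderIsoOfSurjective XX XX_surj).apply_symm_apply t

lemma XXi_XX (t : ℝ) : XXi (XX t) = t :=
  (XX_strictMono.orderIsoOfSurjective XX XX_surj).symm_apply_apply t

noncomputable def Gl (ξ a t : ℝ) : X := fam ξ a (tau a t)
noncomputable def Vt (y t : ℝ) : X := pt (XXi t) y

lemma Gl_dist (ξ a s u : ℝ) : dist (Gl ξ a s) (Gl ξ a u) = |s - u| := by
  unfold Gl
  rcases le_total s u with h | h
  · rw [fam_dist ξ a ((tau a).monotone h), SS_tau, SS_tau, abs_sub_comm,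
      abs_of_nonneg (by linarith)]
  · rw [dist_comm, fam_dist ξ a ((tau a).monotone h), SS_tau, SS_tau,
      abs_of_nonneg (by linarith)]

lemma Vt_dist (y s u : ℝ) : dist (Vt y s) (Vt y u) = |s - u| := by
  unfold Vt
  rcases le_total s u with h | h
  · rw [vert_dist y (XXi.monotone h), XX_XXi, XX_XXi, abs_sub_comm,
      abs_of_nonneg (by linarith)]
  · rw [dist_comm, vert_dist y (XXi.monotone h), XX_XXi, XX_XXi,
      abs_of_nonneg (by linarith)]

/-- the lines of the plane -/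
def IsLine (l : ℝ → X) : Prop :=
  (∃ ξ a k σ : ℝ, (σ = 1 ∨ σ = -1) ∧ ∀ t, l t = Gl ξ a (σ * t + k)) ∨
  (∃ y k σ : ℝ, (σ = 1 ∨ σ = -1) ∧ ∀ t, l t = Vt y (σ * t + k))

lemma abs_sig {σ : ℝ} (h : σ = 1 ∨ σ = -1) (k s u : ℝ) :
    |σ * s + k - (σ * u + k)| = |s - u| := by
  rcases h with h | h
  · subst h; congr 1; ring
  · subst h; rw [← abs_neg]; congr 1; ring

lemma IsLine.dist_eq {l : ℝ → X} (h : IsLine l) (s u : ℝ) : dist (l s) (l u) = |s - u| := by
  rcases h with ⟨ξ, a, k, σ, hσ, hl⟩ | ⟨y, k, σ, hσ, hl⟩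
  · rw [hl, hl, Gl_dist, abs_sig hσ]
  · rw [hl, hl, Vt_dist, abs_sig hσ]

lemma IsLine.reverse {l : ℝ → X} (h : IsLine l) : IsLine (fun t => l (-t)) := by
  rcases h with ⟨ξ, a, k, σ, hσ, hl⟩ | ⟨y, k, σ, hσ, hl⟩
  · left
    refine ⟨ξ, a, k, -σ, ?_, ?_⟩
    · rcases hσ with h | h
      · right; rw [h]
      · left; rw [h]; ring
    · intro t
      simp only [hl]
      congr 1; ring
  · right
    refine ⟨y, k, -σ, ?_, ?_⟩
    · rcases hσ with h | h
      · right; rw [h]
      · left; rw [h]; ring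
    · intro t
      simp only [hl]
      congr 1; ring

lemma ext_right (γ : ℝ → X) {s₀ s₁ : ℝ} (hs : s₀ < s₁)
    (hγ : ∀ s ∈ Icc s₀ s₁, ∀ u ∈ Icc s₀ s₁, dist (γ s) (γ u) = |s - u|)
    (hd : yc (γ s₀) < yc (γ s₁) ∨ (yc (γ s₀) = yc (γ s₁) ∧ zc (γ s₀) ≤ zc (γ s₁))) :
    ∃ l, IsLine l ∧ ∀ s ∈ Icc s₀ s₁, γ s = l s := by
  have m0 : s₀ ∈ Icc s₀ s₁ := ⟨le_rfl, hs.le⟩
  have m1 : s₁ ∈ Icc s₀ s₁ := ⟨hs.le, le_rfl⟩
  have d01 : dist (γ s₀) (γ s₁) = s₁ - s₀ := by
    rw [hγ _ m0 _ m1, abs_sub_comm, abs_of_pos (by linarith)]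
  rcases hd with hd | ⟨hd, hz⟩
  · obtain ⟨ξ, a, τ₁, τ₂, hτ, e1, e2⟩ := connect _ _ hd
    refine ⟨fun t => Gl ξ a (1 * t + (SS a τ₁ - s₀)), Or.inl ⟨ξ, a, _, 1, Or.inl rfl,
      fun t => rfl⟩, ?_⟩
    intro s hsm
    have d12 := fam_dist ξ a hτ.le
    rw [← e1, ← e2, d01] at d12
    have ds0 : dist (γ s₀) (γ s) = s - s₀ := by
      rw [hγ _ m0 _ hsm, abs_sub_comm, abs_of_nonneg (by linarith [hsm.1])]
    have ds1 : dist (γ s) (γ s₁) = s₁ - s := by
      rw [hγ _ hsm _ m1, abs_sub_comm, abs_of_nonneg (by linarith [hsm.2])]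
    obtain ⟨τ, hw, hS⟩ := between ξ a hτ.le (γ s) (by
      rw [← e1, ← e2, ds0, ds1]; linarith)
    rw [← e1, ds0] at hS
    rw [hw]
    simp only [Gl]
    congr 1
    rw [← tau_SS a τ, hS]
    congr 1
    ring
  · set y := yc (γ s₀) with hy
    have e1 : γ s₀ = pt (zc (γ s₀)) y := (pt_eta _).symm
    have e2 : γ s₁ = pt (zc (γ s₁)) y := by rw [hd]; exact (pt_eta _).symm
    refine ⟨fun t => Vt y (1 * t + (XX (zc (γ s₀)) - s₀)), Or.inr ⟨y, _, 1, Or.inl rfl,
      fun t => rfl⟩, ?_⟩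
    intro s hsm
    have d12 := vert_dist y hz
    rw [← e1, ← e2, d01] at d12
    have ds0 : dist (γ s₀) (γ s) = s - s₀ := by
      rw [hγ _ m0 _ hsm, abs_sub_comm, abs_of_nonneg (by linarith [hsm.1])]
    have ds1 : dist (γ s) (γ s₁) = s₁ - s := by
      rw [hγ _ hsm _ m1, abs_sub_comm, abs_of_nonneg (by linarith [hsm.2])]
    obtain ⟨hw, hS⟩ := between_vert (y := y) hz (γ s) (by
      rw [← e1, ← e2, ds0, ds1]; linarith)
    rw [← e1, ds0] at hS
    have e3 : zc (γ s) = XXi (1 * s + (XX (zc (γ s₀)) - s₀)) := by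
      rw [← XXi_XX (zc (γ s)), hS]
      congr 1
      ring
    apply X_ext
    · simp only [Vt, zc_pt]
      exact e3
    · simp only [Vt, yc_pt]
      exact hw

lemma ext_line (γ : ℝ → X) {s₀ s₁ : ℝ} (hs : s₀ < s₁)
    (hγ : ∀ s ∈ Icc s₀ s₁, ∀ u ∈ Icc s₀ s₁, dist (γ s) (γ u) = |s - u|) :
    ∃ l, IsLine l ∧ ∀ s ∈ Icc s₀ s₁, γ s = l s := by
  by_cases hd : yc (γ s₀) < yc (γ s₁) ∨ (yc (γ s₀) = yc (γ s₁) ∧ zc (γ s₀) ≤ zc (γ s₁))
  · exact ext_right γ hs hγ hd
  · have hd' : yc (γ s₁) < yc (γ s₀) ∨ (yc (γ s₁) = yc (γ s₀) ∧ zc (γ s₁) ≤ zc (γ s₀)) := by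
      push Not at hd
      obtain ⟨h1, h2⟩ := hd
      rcases h1.lt_or_eq with h | h
      · left; exact h
      · right; exact ⟨h, (h2 h.symm).le⟩
    obtain ⟨l, hl, hl2⟩ := ext_right (fun t => γ (-t)) (s₀ := -s₁) (s₁ := -s₀) (by linarith)
      (by
        intro s hs u hu
        rw [hγ (-s) ⟨by linarith [hs.2], by linarith [hs.1]⟩ (-u)
          ⟨by linarith [hu.2], by linarith [hu.1]⟩, ← abs_neg]
        congr 1; ring)
      (by simpa using hd')
    refine ⟨fun t => l (-t), hl.reverse, ?_⟩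
    intro s hs
    have := hl2 (-s) ⟨by linarith [hs.2], by linarith [hs.1]⟩
    simpa using this

lemma lin_deriv (σ k t : ℝ) : HasDerivAt (fun t => σ * t + k) σ t := by
  have := ((hasDerivAt_id t).const_mul σ).add_const k
  simpa using this

lemma Gl_X_deriv (ξ a k σ t : ℝ) : HasDerivAt (fun t => XX (zc (Gl ξ a (σ * t + k))))
    (-(th (tau a (σ * t + k))) * σ) t := by
  have e : (fun t => XX (zc (Gl ξ a (σ * t + k)))) =
      fun t => XX (a - lc (tau a (σ * t + k))) := by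
    ext t; unfold Gl fam; rw [zc_pt]
  rw [e]
  have h1 : HasDerivAt (fun t => tau a (σ * t + k))
      ((rho (a - lc (tau a (σ * t + k))))⁻¹ * σ) t :=
    HasDerivAt.comp (h₂ := tau a) (h := fun t => σ * t + k) t (tau_deriv a _) (lin_deriv σ k t)
  have h2 : HasDerivAt (fun t => a - lc (tau a (σ * t + k)))
      (-(th (tau a (σ * t + k)) * ((rho (a - lc (tau a (σ * t + k))))⁻¹ * σ))) t :=
    (HasDerivAt.comp (h₂ := lc) (h := fun t => tau a (σ * t + k)) t (lc_deriv _) h1).const_sub a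
  have h3 := HasDerivAt.comp (h₂ := XX) (h := fun t => a - lc (tau a (σ * t + k))) t
    (XX_deriv _) h2
  refine h3.congr_deriv ?_
  have := (rho_pos (a - lc (tau a (σ * t + k)))).ne'
  field_simp

lemma Gl_y_deriv (ξ a k σ t : ℝ) : HasDerivAt (fun t => yc (Gl ξ a (σ * t + k)))
    (exp a / cosh (tau a (σ * t + k)) ^ 2 * σ) t := by
  have e : (fun t => yc (Gl ξ a (σ * t + k))) =
      fun t => ξ + PP a (tau a (σ * t + k)) := by
    ext t; unfold Gl fam; rw [yc_pt]
  rw [e]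
  have h1 : HasDerivAt (fun t => tau a (σ * t + k))
      ((rho (a - lc (tau a (σ * t + k))))⁻¹ * σ) t :=
    HasDerivAt.comp (h₂ := tau a) (h := fun t => σ * t + k) t (tau_deriv a _) (lin_deriv σ k t)
  have h2 := (HasDerivAt.comp (h₂ := PP a) (h := fun t => tau a (σ * t + k)) t
    (PP_deriv2 a _) h1).const_add ξ
  refine h2.congr_deriv ?_
  have := (rho_pos (a - lc (tau a (σ * t + k)))).ne'
  have := (Real.cosh_pos (tau a (σ * t + k))).ne'
  unfold PP2
  field_simp

lemma Vt_X_deriv (y k σ t : ℝ) : HasDerivAt (fun t => XX (zc (Vt y (σ * t + k)))) σ t := by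
  have e : (fun t => XX (zc (Vt y (σ * t + k)))) = fun t => σ * t + k := by
    ext t; unfold Vt; rw [zc_pt, XX_XXi]
  rw [e]
  exact lin_deriv σ k t

lemma Vt_y_deriv (y k σ t : ℝ) : HasDerivAt (fun t => yc (Vt y (σ * t + k))) 0 t := by
  have e : (fun t => yc (Vt y (σ * t + k))) = fun _ => y := by
    ext t; unfold Vt; rw [yc_pt]
  rw [e]
  exact hasDerivAt_const t y

lemma th_inj : Injective th := by
  have : StrictMono th := by
    apply strictMono_of_hasDerivAt_pos th_deriv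
    intro x
    have := Real.cosh_pos x
    positivity
  exact this.injective

/-- uniqueness of lines with the same germ -/
lemma uniq {l l' : ℝ → X} (hl : IsLine l) (hl' : IsLine l') {t : ℝ} (h : l =ᶠ[𝓝 t] l') :
    l = l' := by
  have ht : l t = l' t := h.eq_of_nhds
  have hX : (fun t => XX (zc (l t))) =ᶠ[𝓝 t] fun t => XX (zc (l' t)) := by
    filter_upwards [h] with x hx; rw [hx]
  have hY : (fun t => yc (l t)) =ᶠ[𝓝 t] fun t => yc (l' t) := by
    filter_upwards [h] with x hx; rw [hx]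
  rcases hl with ⟨ξ, a, k, σ, hσ, hl⟩ | ⟨y, k, σ, hσ, hl⟩ <;>
  rcases hl' with ⟨ξ', a', k', σ', hσ', hl'⟩ | ⟨y', k', σ', hσ', hl'⟩
  · simp only [hl, hl'] at hX hY ht
    have dx := (Gl_X_deriv ξ a k σ t).unique ((Gl_X_deriv ξ' a' k' σ' t).congr_of_eventuallyEq hX)
    have dy := (Gl_y_deriv ξ a k σ t).unique ((Gl_y_deriv ξ' a' k' σ' t).congr_of_eventuallyEq hY)
    set τ := tau a (σ * t + k) with hτ
    set τ' := tau a' (σ' * t + k') with hτ'
    have p1 : 0 < exp a / cosh τ ^ 2 := by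
      have := Real.cosh_pos τ; have := Real.exp_pos a; positivity
    have p2 : 0 < exp a' / cosh τ' ^ 2 := by
      have := Real.cosh_pos τ'; have := Real.exp_pos a'; positivity
    have hσσ : σ = σ' := by
      rcases hσ with h1 | h1 <;> rcases hσ' with h2 | h2
      · rw [h1, h2]
      · exfalso; rw [h1, h2] at dy; linarith
      · exfalso; rw [h1, h2] at dy; linarith
      · rw [h1, h2]
    have hσ0 : σ ≠ 0 := by rcases hσ with h1 | h1 <;> rw [h1] <;> norm_num
    rw [← hσσ] at dx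
    have hth : th τ = th τ' := by
      have := mul_right_cancel₀ hσ0 dx
      linarith
    have hττ : τ = τ' := th_inj hth
    have hz : a - lc τ = a' - lc τ' := by
      have := congrArg zc ht
      unfold Gl fam at this
      rw [zc_pt, zc_pt] at this
      exact this
    have haa : a = a' := by rw [hττ] at hz; linarith
    subst haa
    have hkk : σ * t + k = σ' * t + k' := by
      have := congrArg (SS a) hττ
      rw [hτ, hτ', SS_tau, SS_tau] at this
      exact this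
    have hk : k = k' := by rw [← hσσ] at hkk; linarith
    have hy : ξ + PP a τ = ξ' + PP a τ' := by
      have := congrArg yc ht
      unfold Gl fam at this
      rw [yc_pt, yc_pt] at this
      exact this
    have hξ : ξ = ξ' := by rw [hττ] at hy; linarith
    ext1 x
    rw [hl, hl', hξ, hk, hσσ]
  · exfalso
    simp only [hl, hl'] at hX hY ht
    have dy := (Gl_y_deriv ξ a k σ t).unique ((Vt_y_deriv y' k' σ' t).congr_of_eventuallyEq hY)
    have hσ0 : σ ≠ 0 := by rcases hσ with h1 | h1 <;> rw [h1] <;> norm_num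
    have p1 : exp a / cosh (tau a (σ * t + k)) ^ 2 ≠ 0 := by
      have := Real.cosh_pos (tau a (σ * t + k)); have := Real.exp_pos a; positivity
    exact (mul_ne_zero p1 hσ0) dy
  · exfalso
    simp only [hl, hl'] at hX hY ht
    have dy := (Gl_y_deriv ξ' a' k' σ' t).unique
      ((Vt_y_deriv y k σ t).congr_of_eventuallyEq hY.symm)
    have hσ0 : σ' ≠ 0 := by rcases hσ' with h1 | h1 <;> rw [h1] <;> norm_num
    have p1 : exp a' / cosh (tau a' (σ' * t + k')) ^ 2 ≠ 0 := by
      have := Real.cosh_pos (tau a' (σ' * t + k')); have := Real.exp_pos a'; positivity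
    exact (mul_ne_zero p1 hσ0) dy
  · simp only [hl, hl'] at hX hY ht
    have dx := (Vt_X_deriv y k σ t).unique ((Vt_X_deriv y' k' σ' t).congr_of_eventuallyEq hX)
    have hy : y = y' := by
      have := congrArg yc ht
      unfold Vt at this
      rw [yc_pt, yc_pt] at this
      exact this
    have hk : σ * t + k = σ' * t + k' := by
      have := congrArg (fun p => XX (zc p)) ht
      simp only [Vt, zc_pt, XX_XXi] at this
      exact this
    have hk2 : k = k' := by rw [← dx] at hk; linarith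
    ext1 x
    rw [hl, hl', hy, hk2, dx]

/-- local geodesics are lines -/
lemma local_line (γ : ℝ → X) (hγ : ∀ t : ℝ, ∃ ε > 0, ∀ s u : ℝ, |s - t| < ε → |u - t| < ε →
    dist (γ s) (γ u) = |s - u|) : ∃ l, IsLine l ∧ γ = l := by
  have key : ∀ t : ℝ, ∃ l, IsLine l ∧ γ =ᶠ[𝓝 t] l := by
    intro t
    obtain ⟨ε, hε, h⟩ := hγ t
    obtain ⟨l, hl, hl2⟩ := ext_line γ (s₀ := t - ε / 2) (s₁ := t + ε / 2) (by linarith)
      (by
        intro s hs u hu
        apply h
        · rw [abs_lt]; constructor <;> linarith [hs.1, hs.2]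
        · rw [abs_lt]; constructor <;> linarith [hu.1, hu.2])
    refine ⟨l, hl, ?_⟩
    filter_upwards [Icc_mem_nhds (show t - ε / 2 < t by linarith) (show t < t + ε / 2 by linarith)]
      with s hs
    exact hl2 s hs
  choose L hL hL2 using key
  have hloc : IsLocallyConstant L := by
    rw [IsLocallyConstant.iff_eventually_eq]
    intro t
    have h1 := (hL2 t).eventuallyEq_nhds
    filter_upwards [h1] with s hs
    exact (uniq (hL t) (hL s) (hs.symm.trans (hL2 s))).symm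
  have hconst : ∀ t, L t = L 0 := fun t => hloc.apply_eq_of_preconnectedSpace t 0
  refine ⟨L 0, hL 0, ?_⟩
  ext1 t
  rw [← hconst t]
  exact (hL2 t).eq_of_nhds

end Pool.Agent.H.MP_92a93b_gt
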