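import Mathlib

set_option autoImplicit false
open Bundle Filter Topology Manifold Bornology
open scoped Manifold ContDiff

namespace Pool.Agent.H.MP_92a93b_gt

/-- The model plane. -/
abbrev E2 : Type := EuclideanSpace ℝ (Fin 2)

/-- Coefficients of a diagonal metric depending on the first coordinate only. -/
structure Dat where
  A : ℝ → ℝ
  B : ℝ → ℝ
  smoothA : ContDiff ℝ ∞ A
  smoothB : ContDiff ℝ ∞ B
  posA : ∀ z, 0 < A z
  posB : ∀ z, 0 < B z

/-- The plane carrying the metric with coefficients `D`. -/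
def Pl (_D : Dat) : Type := E2

variable (D : Dat)

noncomputable instance : TopologicalSpace (Pl D) := inferInstanceAs (TopologicalSpace E2)
noncomputable instance : ChartedSpace E2 (Pl D) := inferInstanceAs (ChartedSpace E2 E2)
instance : IsManifold (𝓘(ℝ, E2)) ∞ (Pl D) := inferInstanceAs (IsManifold (𝓘(ℝ, E2)) ∞ E2)
instance : IsManifold (𝓘(ℝ, E2)) 1 (Pl D) := inferInstanceAs (IsManifold (𝓘(ℝ, E2)) 1 E2)
instance : T3Space (Pl D) := inferInstanceAs (T3Space E2)

/-- first coordinate form -/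
noncomputable def e0 : E2 →L[ℝ] ℝ := EuclideanSpace.proj (0 : Fin 2)
/-- second coordinate form -/
noncomputable def e1 : E2 →L[ℝ] ℝ := EuclideanSpace.proj (1 : Fin 2)

/-- the bilinear form at a point with first coordinate z -/
noncomputable def bil (z : ℝ) : E2 →L[ℝ] E2 →L[ℝ] ℝ :=
  (D.A z) ^ 2 • (e0.smulRight e0) + (D.B z) ^ 2 • (e1.smulRight e1)

lemma bil_apply (z : ℝ) (v w : E2) :
    bil D z v w = (D.A z) ^ 2 * (v 0 * w 0) + (D.B z) ^ 2 * (v 1 * w 1) := by
  simp [bil, e0, e1]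

lemma smulc {E F : Type*} [NormedAddCommGroup E] [NormedSpace ℝ E] [NormedAddCommGroup F]
    [NormedSpace ℝ F] (f : E → ℝ) (hf : ContDiff ℝ ∞ f) (T : F) :
    ContDiff ℝ ∞ (fun p => f p • T) :=
  ContDiff.smul hf contDiff_const

lemma bil_contDiff : ContDiff ℝ ∞ (fun p : E2 => bil D (p 0)) := by
  have h0 : ContDiff ℝ ∞ (fun p : E2 => p 0) := (EuclideanSpace.proj (𝕜 := ℝ) (0 : Fin 2)).contDiff
  unfold bil
  apply ContDiff.add
  · exact smulc _ ((D.smoothA.comp h0).pow 2) _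
  · exact smulc _ ((D.smoothB.comp h0).pow 2) _

lemma bil_pos (z : ℝ) (v : E2) (hv : v ≠ 0) : 0 < bil D z v v := by
  rw [bil_apply]
  have hA := D.posA z
  have hB := D.posB z
  have hv' : v 0 ≠ 0 ∨ v 1 ≠ 0 := by
    by_contra h
    push Not at h
    apply hv
    ext i
    fin_cases i
    · exact h.1
    · exact h.2
  have h0 : 0 ≤ v 0 * v 0 := mul_self_nonneg _
  have h1 : 0 ≤ v 1 * v 1 := mul_self_nonneg _
  rcases hv' with h | h
  · have : 0 < v 0 * v 0 := mul_self_pos.2 h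
    have h3 : 0 < (D.A z) ^ 2 * (v 0 * v 0) := by positivity
    have h4 : 0 ≤ (D.B z) ^ 2 * (v 1 * v 1) := by positivity
    linarith
  · have : 0 < v 1 * v 1 := mul_self_pos.2 h
    have h3 : 0 < (D.B z) ^ 2 * (v 1 * v 1) := by positivity
    have h4 : 0 ≤ (D.A z) ^ 2 * (v 0 * v 0) := by positivity
    linarith

lemma bil_bdd (z : ℝ) : IsVonNBounded ℝ {v : E2 | bil D z v v < 1} := by
  have hA := D.posA z
  have hB := D.posB z
  apply (NormedSpace.isVonNBounded_ball ℝ E2 (1 / D.A z + 1 / D.B z + 1)).subset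
  intro v hv
  have hv' : (D.A z) ^ 2 * (v 0 * v 0) + (D.B z) ^ 2 * (v 1 * v 1) < 1 := by
    rw [← bil_apply]; exact hv
  rw [mem_ball_zero_iff, EuclideanSpace.norm_eq]
  have hpos : 0 < 1 / D.A z + 1 / D.B z + 1 := by positivity
  rw [Real.sqrt_lt' hpos]
  simp only [Fin.sum_univ_two, Real.norm_eq_abs, sq_abs]
  have ha : 0 ≤ (D.A z) ^ 2 * (v 0 * v 0) := mul_nonneg (sq_nonneg _) (mul_self_nonneg _)
  have hb : 0 ≤ (D.B z) ^ 2 * (v 1 * v 1) := mul_nonneg (sq_nonneg _) (mul_self_nonneg _)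
  have h0 : (v 0) ^ 2 ≤ (1 / D.A z) ^ 2 := by
    rw [div_pow, one_pow, le_div_iff₀ (by positivity)]
    nlinarith
  have h1 : (v 1) ^ 2 ≤ (1 / D.B z) ^ 2 := by
    rw [div_pow, one_pow, le_div_iff₀ (by positivity)]
    nlinarith
  have h2 : 0 < 1 / D.A z := by positivity
  have h3 : 0 < 1 / D.B z := by positivity
  nlinarith

set_option backward.isDefEq.respectTransparency false in
/-- The smooth Riemannian metric. -/
noncomputable def metric :
    ContMDiffRiemannianMetric 𝓘(ℝ, E2) ∞ E2 (fun (x : Pl D) ↦ TangentSpace 𝓘(ℝ, E2) x) where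
  inner x := (bil D ((show E2 from x) 0) : E2 →L[ℝ] E2 →L[ℝ] ℝ)
  symm x v w := by
    change bil D ((show E2 from x) 0) v w = bil D ((show E2 from x) 0) w v
    rw [bil_apply, bil_apply]; ring
  pos x v hv := bil_pos D _ _ hv
  isVonNBounded x := bil_bdd D _
  contMDiff := by
    intro x
    rw [contMDiffAt_section]
    convert! (bil_contDiff D).contMDiff.contMDiffAt (x := (show E2 from x))
    ext v w
    simp [hom_trivializationAt_apply, ContinuousLinearMap.inCoordinates, TangentSpace]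

noncomputable instance : RiemannianBundle (fun (x : Pl D) ↦ TangentSpace 𝓘(ℝ, E2) x) :=
  ⟨(metric D).toRiemannianMetric⟩

instance : IsContMDiffRiemannianBundle 𝓘(ℝ, E2) ∞ E2
    (fun (x : Pl D) ↦ TangentSpace 𝓘(ℝ, E2) x) := inferInstance

instance : IsContinuousRiemannianBundle E2
    (fun (x : Pl D) ↦ TangentSpace 𝓘(ℝ, E2) x) :=
  ⟨(metric D).inner, (metric D).contMDiff.continuous, fun _ _ _ => rfl⟩

end Pool.Agent.H.MP_92a93b_gt
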