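import Pool.Agent.H.MP_92a93b_gt.Abel

set_option autoImplicit false
open Filter Topology Set MeasureTheory Function Real
open scoped ContDiff

namespace Pool.Agent.H.MP_92a93b_gt

lemma K_deriv2 (z : ℝ) {τ : ℝ} (hτ : τ < 0) :
    HasDerivAt (K z) ((2 / π) * ∫ θ in (0:ℝ)..(π / 2), eta (exp z * sin θ) * (exp z * cos θ) *
      (cos θ * cosh τ / (sinh τ ^ 2 + cos θ ^ 2))) τ := by
  apply HasDerivAt.const_mul
  apply hasDerivAt_pi (U := Iio 0) isOpen_Iio
    (G := fun τ θ => eta (exp z * sin θ) * (exp z * cos θ) * arctan (cos θ / (-sinh τ)))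
    (G' := fun τ θ => eta (exp z * sin θ) * (exp z * cos θ) *
      (cos θ * cosh τ / (sinh τ ^ 2 + cos θ ^ 2))) _ _ _ hτ
  · have : (uncurry fun τ θ => eta (exp z * sin θ) * (exp z * cos θ) *
        arctan (cos θ / (-sinh τ))) = fun p : ℝ × ℝ =>
        eta (exp z * sin p.2) * (exp z * cos p.2) * arctan (cos p.2 / (-sinh p.1)) := by
      ext p; rfl
    rw [this]
    apply ContinuousOn.mul _ (arg_contOn _ _)
    exact ((eta_cont.comp (by fun_prop)).mul (by fun_prop)).continuousOn
  · have : (uncurry fun τ θ => eta (exp z * sin θ) * (exp z * cos θ) *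
        (cos θ * cosh τ / (sinh τ ^ 2 + cos θ ^ 2))) = fun p : ℝ × ℝ =>
        eta (exp z * sin p.2) * (exp z * cos p.2) *
        (cos p.2 * cosh p.1 / (sinh p.1 ^ 2 + cos p.2 ^ 2)) := by
      ext p; rfl
    rw [this]
    apply ContinuousOn.mul _ (quot_contOn _ _)
    exact ((eta_cont.comp (by fun_prop)).mul (by fun_prop)).continuousOn
  · intro x hx θ _
    exact (arg_deriv hx θ).const_mul _

lemma F2_pos_neg (z : ℝ) {τ : ℝ} (hτ : τ < 0) : 0 < F2 z τ := by
  have h1 : HasDerivAt (F z) ((2 / π) * ∫ θ in (0:ℝ)..(π / 2),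
      eta (exp z * sin θ) * (exp z * cos θ) *
      (cos θ * cosh τ / (sinh τ ^ 2 + cos θ ^ 2))) τ := by
    apply (K_deriv2 z hτ).congr_of_eventuallyEq
    filter_upwards [Iio_mem_nhds hτ] with x hx
    exact F_eq_K z hx
  rw [(F_deriv2 z τ).unique h1]
  have hs : sinh τ < 0 := Real.sinh_neg_iff.2 hτ
  have hp : 0 < sinh τ ^ 2 := sq_pos hs
  have hpi := Real.pi_pos
  have hpos : 0 < ∫ θ in (0:ℝ)..(π / 2), eta (exp z * sin θ) * (exp z * cos θ) *
      (cos θ * cosh τ / (sinh τ ^ 2 + cos θ ^ 2)) := by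
    apply intervalIntegral.integral_pos (by positivity)
    · apply Continuous.continuousOn
      apply Continuous.mul
      · exact (eta_cont.comp (by fun_prop)).mul (by fun_prop)
      · apply Continuous.div (by fun_prop) (by fun_prop)
        intro x
        exact den_ne hτ x
    · intro θ hθ
      have hcos : 0 ≤ cos θ := Real.cos_nonneg_of_mem_Icc ⟨by linarith [hθ.1], hθ.2⟩
      have he := eta_nonneg (exp z * sin θ)
      have hez := Real.exp_pos z
      have hco := Real.cosh_pos τ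
      positivity
    · refine ⟨0, ⟨le_rfl, by positivity⟩, ?_⟩
      have hez := Real.exp_pos z
      have hco := Real.cosh_pos τ
      simp only [sin_zero, mul_zero, cos_zero, mul_one, one_mul]
      rw [eta_of_le (by norm_num)]
      positivity
  positivity

lemma F2_pos_zero (z : ℝ) : 0 < F2 z 0 := by
  unfold F2 PP2
  rw [th_zero, lc_zero]
  have := rho_pos z
  have := Real.exp_pos z
  simp
  positivity

lemma PP_neg (a τ : ℝ) : PP a (-τ) = 2 * EE (exp a) - PP a τ := by
  unfold PP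
  have : ∫ x in (0:ℝ)..(-τ), rho (a - lc x) / cosh x ^ 2 =
      - ∫ x in (0:ℝ)..τ, rho (a - lc x) / cosh x ^ 2 := by
    have h := intervalIntegral.integral_comp_neg (a := 0) (b := τ)
      (fun x => rho (a - lc x) / cosh x ^ 2)
    simp only [lc_neg, Real.cosh_neg, neg_zero] at h
    rw [h, intervalIntegral.integral_symm]
  rw [this]
  ring

lemma F_reflect (z τ : ℝ) : F z τ = 2 * EE (exp (z + lc τ)) - F z (-τ) := by
  unfold F
  rw [lc_neg, PP_neg]
  ring

lemma F2_reflect (z τ : ℝ) :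
    F2 z τ = 2 * (eta (exp (z + lc τ)) * (exp (z + lc τ) * th τ)) + F2 z (-τ) := by
  have h1 : HasDerivAt (fun τ => 2 * EE (exp (z + lc τ)) - F z (-τ))
      (2 * (eta (exp (z + lc τ)) * (exp (z + lc τ) * th τ)) - F2 z (-τ) * (-1)) τ := by
    apply HasDerivAt.sub
    · apply HasDerivAt.const_mul
      exact HasDerivAt.comp (h₂ := EE) (h := fun τ => exp (z + lc τ)) τ
        (EE_deriv _) ((lc_deriv τ).const_add z).exp
    · exact HasDerivAt.comp (h₂ := F z) (h := fun τ => -τ) τ (F_deriv2 z (-τ)) (hasDerivAt_neg τ)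
  have h2 : (fun τ => 2 * EE (exp (z + lc τ)) - F z (-τ)) = F z := by
    ext x; rw [F_reflect z x]
  rw [h2] at h1
  rw [(F_deriv2 z τ).unique h1]
  ring

lemma F2_pos (z τ : ℝ) : 0 < F2 z τ := by
  rcases lt_trichotomy τ 0 with h | h | h
  · exact F2_pos_neg z h
  · rw [h]; exact F2_pos_zero z
  · rw [F2_reflect]
    have h1 := F2_pos_neg z (τ := -τ) (by linarith)
    have h2 : 0 ≤ th τ := by
      unfold th
      exact div_nonneg (Real.sinh_nonneg_iff.2 h.le) (Real.cosh_pos _).le
    have h3 := eta_nonneg (exp (z + lc τ))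
    have h4 := Real.exp_pos (z + lc τ)
    positivity

lemma F_strictMono (z : ℝ) : StrictMono (F z) :=
  strictMono_of_hasDerivAt_pos (F_deriv2 z) (F2_pos z)

lemma K_nonneg (z : ℝ) {τ : ℝ} (hτ : τ < 0) : 0 ≤ K z τ := by
  have hs : sinh τ < 0 := Real.sinh_neg_iff.2 hτ
  have hpi := Real.pi_pos
  unfold K
  have : 0 ≤ ∫ θ in (0:ℝ)..(π / 2), eta (exp z * sin θ) * (exp z * cos θ) *
    arctan (cos θ / (-sinh τ)) := by
    apply intervalIntegral.integral_nonneg (by positivity)
    intro θ hθ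
    have hcos : 0 ≤ cos θ := Real.cos_nonneg_of_mem_Icc ⟨by linarith [hθ.1], hθ.2⟩
    have he := eta_nonneg (exp z * sin θ)
    have hez := Real.exp_pos z
    have : 0 ≤ arctan (cos θ / (-sinh τ)) :=
      Real.arctan_nonneg.2 (div_nonneg hcos (by linarith))
    positivity
  positivity

lemma K_le (z : ℝ) {τ : ℝ} (hτ : τ < 0) : K z τ ≤ exp z / (-sinh τ) := by
  have hs : sinh τ < 0 := Real.sinh_neg_iff.2 hτ
  have hS : 0 < -sinh τ := by linarith
  have hpi := Real.pi_pos
  have hez := Real.exp_pos z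
  unfold K
  have : ∫ θ in (0:ℝ)..(π / 2), eta (exp z * sin θ) * (exp z * cos θ) *
    arctan (cos θ / (-sinh τ)) ≤ ∫ θ in (0:ℝ)..(π / 2), exp z / (-sinh τ) := by
    apply intervalIntegral.integral_mono_on (by positivity)
    · apply Continuous.intervalIntegrable
      exact ((eta_cont.comp (by fun_prop)).mul (by fun_prop)).mul
        (Real.continuous_arctan.comp (by fun_prop))
    · exact intervalIntegrable_const
    · intro θ hθ
      have hcos : 0 ≤ cos θ := Real.cos_nonneg_of_mem_Icc ⟨by linarith [hθ.1], hθ.2⟩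
      have hcos1 := Real.cos_le_one θ
      have he := eta_nonneg (exp z * sin θ)
      have he1 := eta_le_one (exp z * sin θ)
      have h1 : arctan (cos θ / (-sinh τ)) ≤ cos θ / (-sinh τ) :=
        arctan_le (div_nonneg hcos hS.le)
      have h2 : cos θ / (-sinh τ) ≤ 1 / (-sinh τ) := by gcongr
      have h0 : 0 ≤ arctan (cos θ / (-sinh τ)) :=
        Real.arctan_nonneg.2 (div_nonneg hcos hS.le)
      calc eta (exp z * sin θ) * (exp z * cos θ) * arctan (cos θ / (-sinh τ))
          ≤ 1 * (exp z * 1) * (1 / (-sinh τ)) := by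
            gcongr
            exact h1.trans h2
        _ = exp z / (-sinh τ) := by ring
  rw [intervalIntegral.integral_const] at this
  simp only [sub_zero, smul_eq_mul] at this
  calc 2 / π * ∫ θ in (0:ℝ)..(π / 2), eta (exp z * sin θ) * (exp z * cos θ) *
    arctan (cos θ / (-sinh τ)) ≤ 2 / π * (π / 2 * (exp z / (-sinh τ))) := by gcongr
    _ = _ := by field_simp

lemma F_le (z : ℝ) {τ : ℝ} (hτ : τ < 0) : F z τ ≤ exp z / (-sinh τ) := by
  rw [F_eq_K z hτ]; exact K_le z hτ

lemma F_pos (z τ : ℝ) : 0 < F z τ := by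
  have h1 : F z (min τ 0 - 1) < F z τ := by
    apply F_strictMono z
    have := min_le_left τ 0
    linarith
  have h2 : 0 ≤ F z (min τ 0 - 1) := by
    have : min τ 0 - 1 < 0 := by
      have := min_le_right τ 0
      linarith
    rw [F_eq_K z this]
    exact K_nonneg z this
  linarith

lemma tendsto_sinh : Tendsto sinh atTop atTop := by
  apply tendsto_atTop_mono' atTop (f₁ := fun x : ℝ => x)
  · filter_upwards [eventually_ge_atTop 0] with x hx
    exact Real.self_le_sinh_iff.2 hx
  · exact tendsto_id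

lemma tendsto_bd (z : ℝ) : Tendsto (fun τ => exp z / (-sinh τ)) atBot (𝓝 0) := by
  apply Tendsto.div_atTop tendsto_const_nhds
  have : Tendsto (fun τ => sinh (-τ)) atBot atTop := tendsto_sinh.comp tendsto_neg_atBot_atTop
  simpa [Real.sinh_neg] using this

lemma F_tendsto_bot (z : ℝ) : Tendsto (F z) atBot (𝓝 0) := by
  apply squeeze_zero' (Eventually.of_forall fun τ => (F_pos z τ).le) _ (tendsto_bd z)
  filter_upwards [eventually_lt_atBot 0] with τ hτ
  exact F_le z hτ

lemma lc_ge (x : ℝ) : |x| - 1 ≤ lc x := by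
  have h : exp (|x| - 1) ≤ cosh x := by
    rw [← Real.cosh_abs, Real.cosh_eq, Real.exp_sub]
    have h1 := Real.exp_pos |x|
    have h2 := Real.exp_pos (-|x|)
    have h3 : 2 ≤ exp 1 := by
      have := Real.add_one_le_exp (1:ℝ)
      linarith
    have h4 : exp |x| / exp 1 ≤ exp |x| / 2 := by gcongr
    linarith
  calc |x| - 1 = Real.log (exp (|x| - 1)) := (Real.log_exp _).symm
    _ ≤ lc x := Real.log_le_log (Real.exp_pos _) h

lemma EE_ge' (x : ℝ) (hx : 0 ≤ x) : x - 5 ≤ EE x := by
  rcases le_total 5 x with h | h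
  · exact EE_ge x h
  · have : 0 ≤ EE x := by rw [← EE_zero]; exact EE_mono hx
    linarith

lemma F_tendsto_top (z : ℝ) : Tendsto (F z) atTop atTop := by
  have h : ∀ τ, 0 ≤ τ → 2 * (z + τ - 5) - F z 0 ≤ F z τ := by
    intro τ hτ
    rw [F_reflect z τ]
    have h1 : F z (-τ) ≤ F z 0 := (F_strictMono z).monotone (by linarith)
    have h2 : exp (z + lc τ) - 5 ≤ EE (exp (z + lc τ)) := EE_ge' _ (Real.exp_pos _).le
    have h3 : z + lc τ + 1 ≤ exp (z + lc τ) := Real.add_one_le_exp _
    have h4 := lc_ge τ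
    rw [abs_of_nonneg hτ] at h4
    linarith
  apply tendsto_atTop_mono' atTop (f₁ := fun τ => 2 * (z + τ - 5) - F z 0)
  · filter_upwards [eventually_ge_atTop 0] with τ hτ
    exact h τ hτ
  · have : (fun τ => 2 * (z + τ - 5) - F z 0) = fun τ => (2 * (z - 5) - F z 0) + 2 * τ := by
      ext τ; ring
    rw [this]
    exact tendsto_atTop_add_const_left _ _ (tendsto_id.const_mul_atTop (by norm_num))

lemma F_cont1 (z : ℝ) : Continuous (F z) :=
  continuous_iff_continuousAt.2 fun τ => (F_deriv2 z τ).continuousAt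

lemma F_surj (z : ℝ) {y : ℝ} (hy : 0 < y) : ∃ τ, F z τ = y := by
  obtain ⟨τ₁, h1⟩ := ((F_tendsto_bot z).eventually (gt_mem_nhds hy)).exists
  obtain ⟨τ₂, h2⟩ := ((F_tendsto_top z).eventually (eventually_ge_atTop y)).exists
  have := mem_range_of_exists_le_of_exists_ge (F_cont1 z) ⟨τ₁, h1.le⟩ ⟨τ₂, h2⟩
  exact this

open Classical in
/-- the inverse of F in the second variable -/
noncomputable def T (z y : ℝ) : ℝ := if h : 0 < y then Classical.choose (F_surj z h) else 0

lemma F_T (z : ℝ) {y : ℝ} (hy : 0 < y) : F z (T z y) = y := by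
  unfold T
  rw [dif_pos hy]
  exact Classical.choose_spec (F_surj z hy)

lemma T_F (z τ : ℝ) : T z (F z τ) = τ :=
  (F_strictMono z).injective (F_T z (F_pos z τ))

lemma T_lt (z : ℝ) {y τ : ℝ} (hy : 0 < y) (h : y < F z τ) : T z y < τ := by
  rw [← (F_strictMono z).lt_iff_lt, F_T z hy]; exact h

lemma lt_T (z : ℝ) {y τ : ℝ} (hy : 0 < y) (h : F z τ < y) : τ < T z y := by
  rw [← (F_strictMono z).lt_iff_lt, F_T z hy]; exact h

lemma T_contAt (z y : ℝ) (hy : 0 < y) : ContinuousAt (fun p : ℝ × ℝ => T p.1 p.2) (z, y) := by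
  rw [Metric.continuousAt_iff']
  intro ε hε
  set t := T z y with ht
  have hFt : F z t = y := F_T z hy
  have h1 : F z (t - ε) < y := by rw [← hFt]; exact F_strictMono z (by linarith)
  have h2 : y < F z (t + ε) := by rw [← hFt]; exact F_strictMono z (by linarith)
  have c1 : ∀ᶠ p : ℝ × ℝ in 𝓝 (z, y), F p.1 (t - ε) < p.2 := by
    have : Continuous fun p : ℝ × ℝ => F p.1 (t - ε) :=
      F_cont.comp (continuous_fst.prodMk continuous_const)
    exact (this.continuousAt).eventually_lt continuous_snd.continuousAt h1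
  have c2 : ∀ᶠ p : ℝ × ℝ in 𝓝 (z, y), p.2 < F p.1 (t + ε) := by
    have : Continuous fun p : ℝ × ℝ => F p.1 (t + ε) :=
      F_cont.comp (continuous_fst.prodMk continuous_const)
    exact continuous_snd.continuousAt.eventually_lt (this.continuousAt) h2
  have c3 : ∀ᶠ p : ℝ × ℝ in 𝓝 (z, y), 0 < p.2 :=
    continuous_const.continuousAt.eventually_lt continuous_snd.continuousAt hy
  filter_upwards [c1, c2, c3] with p h1 h2 h3
  rw [Real.dist_eq, abs_lt]
  have := lt_T p.1 h3 h1
  have := T_lt p.1 h3 h2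
  constructor <;> linarith

end Pool.Agent.H.MP_92a93b_gt
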