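import Mathlib

set_option autoImplicit false
open Filter Topology Set MeasureTheory Function
open scoped ContDiff

namespace Pool.Agent.H.MP_92a93b_gt

/-- Differentiation under the integral sign on a compact interval, local version. -/
lemma hasDerivAt_pi {G G' : ℝ → ℝ → ℝ} {U : Set ℝ} (hU : IsOpen U) {a b : ℝ}
    (hG : ContinuousOn (uncurry G) (U ×ˢ uIcc a b))
    (hG' : ContinuousOn (uncurry G') (U ×ˢ uIcc a b))
    (hd : ∀ z ∈ U, ∀ θ ∈ uIcc a b, HasDerivAt (fun z => G z θ) (G' z θ) z)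
    {z₀ : ℝ} (hz₀ : z₀ ∈ U) :
    HasDerivAt (fun z => ∫ θ in a..b, G z θ) (∫ θ in a..b, G' z₀ θ) z₀ := by
  obtain ⟨δ, hδ, hball⟩ := Metric.nhds_basis_closedBall.mem_iff.1 (hU.mem_nhds hz₀)
  have hK : IsCompact (Metric.closedBall z₀ δ ×ˢ uIcc a b) :=
    (isCompact_closedBall z₀ δ).prod isCompact_uIcc
  have hsub : Metric.closedBall z₀ δ ×ˢ uIcc a b ⊆ U ×ˢ uIcc a b :=
    prod_mono hball Subset.rfl
  obtain ⟨C, hC⟩ := hK.exists_bound_of_continuousOn (hG'.mono hsub)
  have sec : ∀ z ∈ U, ContinuousOn (G z) (uIcc a b) := by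
    intro z hz
    have : ContinuousOn (fun θ => uncurry G (z, θ)) (uIcc a b) := by
      apply hG.comp (by fun_prop)
      intro θ hθ
      exact ⟨hz, hθ⟩
    exact this
  have sec' : ∀ z ∈ U, ContinuousOn (G' z) (uIcc a b) := by
    intro z hz
    have : ContinuousOn (fun θ => uncurry G' (z, θ)) (uIcc a b) := by
      apply hG'.comp (by fun_prop)
      intro θ hθ
      exact ⟨hz, hθ⟩
    exact this
  refine (intervalIntegral.hasDerivAt_integral_of_dominated_loc_of_deriv_le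
    (s := Metric.closedBall z₀ δ) (bound := fun _ => C) (Metric.closedBall_mem_nhds z₀ hδ)
    ?_ ?_ ?_ ?_ ?_ ?_).2
  · filter_upwards [hU.mem_nhds hz₀] with z hz
    exact ((sec z hz).mono uIoc_subset_uIcc).aestronglyMeasurable measurableSet_uIoc
  · exact (sec z₀ hz₀).intervalIntegrable
  · exact ((sec' z₀ hz₀).mono uIoc_subset_uIcc).aestronglyMeasurable measurableSet_uIoc
  · refine ae_of_all _ (fun θ hθ z hz => ?_)
    exact hC (z, θ) ⟨hz, uIoc_subset_uIcc hθ⟩
  · exact intervalIntegrable_const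
  · refine ae_of_all _ (fun θ hθ z hz => ?_)
    exact hd z (hball hz) θ (uIoc_subset_uIcc hθ)

/-- Global version. -/
lemma hasDerivAt_pi' {G G' : ℝ → ℝ → ℝ} (a b : ℝ)
    (hG : Continuous (uncurry G)) (hG' : Continuous (uncurry G'))
    (hd : ∀ z θ, HasDerivAt (fun z => G z θ) (G' z θ) z) (z₀ : ℝ) :
    HasDerivAt (fun z => ∫ θ in a..b, G z θ) (∫ θ in a..b, G' z₀ θ) z₀ :=
  hasDerivAt_pi isOpen_univ hG.continuousOn hG'.continuousOn (fun z _ θ _ => hd z θ) (mem_univ _)

lemma contDiff_pi_nat (a b : ℝ) (n : ℕ) : ∀ (G : ℝ → ℝ → ℝ), ContDiff ℝ ∞ (uncurry G) →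
    ContDiff ℝ n (fun z => ∫ θ in a..b, G z θ) := by
  induction n with
  | zero =>
    intro G hG
    rw [Nat.cast_zero, contDiff_zero]
    exact intervalIntegral.continuous_parametric_intervalIntegral_of_continuous' hG.continuous a b
  | succ n ih =>
    intro G hG
    set G' : ℝ → ℝ → ℝ := fun z θ => fderiv ℝ (uncurry G) (z, θ) (1, 0) with hG'
    have hGs : ContDiff ℝ ∞ (uncurry G') := by
      have h1 : ContDiff ℝ ∞ (fun p : ℝ × ℝ => fderiv ℝ (uncurry G) p) :=
        hG.fderiv_right (m := ∞) (by simp)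
      have h2 : ContDiff ℝ ∞ (fun p : ℝ × ℝ => fderiv ℝ (uncurry G) p (1, 0)) :=
        h1.clm_apply contDiff_const
      exact h2
    have hd : ∀ z θ, HasDerivAt (fun z => G z θ) (G' z θ) z := by
      intro z θ
      have h1 : HasFDerivAt (uncurry G) (fderiv ℝ (uncurry G) (z, θ)) (z, θ) :=
        (hG.differentiable (by simp) _).hasFDerivAt
      have h2 : HasDerivAt (fun z : ℝ => (z, θ)) ((1 : ℝ), (0 : ℝ)) z :=
        (hasDerivAt_id z).prodMk (hasDerivAt_const z θ)
      exact h1.comp_hasDerivAt z h2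
    have hD := fun z => hasDerivAt_pi' a b hG.continuous hGs.continuous hd z
    rw [show ((n + 1 : ℕ) : ℕ∞ω) = (n : ℕ∞ω) + 1 by push_cast; rfl, contDiff_succ_iff_deriv]
    refine ⟨fun z => (hD z).differentiableAt, by simp, ?_⟩
    have : deriv (fun z => ∫ θ in a..b, G z θ) = fun z => ∫ θ in a..b, G' z θ := by
      ext z; exact (hD z).deriv
    rw [this]
    exact ih G' hGs

lemma contDiff_pi (a b : ℝ) (G : ℝ → ℝ → ℝ) (hG : ContDiff ℝ ∞ (uncurry G)) :
    ContDiff ℝ ∞ (fun z => ∫ θ in a..b, G z θ) := by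
  rw [contDiff_infty]
  intro n
  exact contDiff_pi_nat a b n G hG

/-- Differentiability of a function of two real variables from continuous partial derivatives. -/
lemma hasFDerivAt_partials {f f1 f2 : ℝ → ℝ → ℝ}
    (h1 : ∀ x y, HasDerivAt (fun x => f x y) (f1 x y) x)
    (h2 : ∀ x y, HasDerivAt (fun y => f x y) (f2 x y) y)
    (c1 : Continuous (uncurry f1)) (c2 : Continuous (uncurry f2)) (p : ℝ × ℝ) :
    HasFDerivAt (uncurry f) (f1 p.1 p.2 • ContinuousLinearMap.fst ℝ ℝ ℝ +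
      f2 p.1 p.2 • ContinuousLinearMap.snd ℝ ℝ ℝ) p := by
  have key := hasStrictFDerivAt_uncurry_coprod (𝕜 := ℝ) (u := p) (f := f)
    (f₁ := fun x y => ContinuousLinearMap.toSpanSingleton ℝ (f1 x y))
    (f₂ := fun x y => ContinuousLinearMap.toSpanSingleton ℝ (f2 x y))
    (Eventually.of_forall fun v => (h1 v.1 v.2).hasFDerivAt)
    (Eventually.of_forall fun v => (h2 v.1 v.2).hasFDerivAt)
    (by
      apply Continuous.continuousAt
      exact (ContinuousLinearMap.toSpanSingletonCLE (𝕜 := ℝ) (E := ℝ)).continuous.comp c1)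
    (by
      apply Continuous.continuousAt
      exact (ContinuousLinearMap.toSpanSingletonCLE (𝕜 := ℝ) (E := ℝ)).continuous.comp c2)
  have e : (f1 p.1 p.2 • ContinuousLinearMap.fst ℝ ℝ ℝ +
      f2 p.1 p.2 • ContinuousLinearMap.snd ℝ ℝ ℝ) =
      (ContinuousLinearMap.toSpanSingleton ℝ (f1 p.1 p.2)).coprod
        (ContinuousLinearMap.toSpanSingleton ℝ (f2 p.1 p.2)) := by
    ext <;> simp
  rw [e]
  exact key.hasFDerivAt

end Pool.Agent.H.MP_92a93b_gt
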