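import Pool.Agent.H.MP_92a93b_gt.Lines

set_option autoImplicit false
open Filter Topology Set MeasureTheory Function Real
open scoped ContDiff

namespace Pool.Agent.H.MP_92a93b_gt

/-- family point -/
noncomputable def fam (ξ a τ : ℝ) : X := pt (a - lc τ) (ξ + PP a τ)

lemma PP_eq_F (a τ : ℝ) : PP a τ = F (a - lc τ) τ := by
  unfold F; rw [sub_add_cancel]

lemma PP_pos (a τ : ℝ) : 0 < PP a τ := by rw [PP_eq_F]; exact F_pos _ _

lemma PP2_pos (a τ : ℝ) : 0 < PP2 a τ := by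
  unfold PP2
  have := rho_pos (a - lc τ)
  have := Real.cosh_pos τ
  have := Real.exp_pos a
  positivity

lemma PP_strictMono (a : ℝ) : StrictMono (PP a) :=
  strictMono_of_hasDerivAt_pos (PP_deriv2 a) (PP2_pos a)

lemma SS_strictMono (a : ℝ) : StrictMono (SS a) :=
  strictMono_of_hasDerivAt_pos (SS_deriv2 a) (fun _ => rho_pos _)

lemma SS_zero (a : ℝ) : SS a 0 = 0 := by simp [SS]

lemma SS_cont (a : ℝ) : Continuous (SS a) :=
  continuous_iff_continuousAt.2 fun z => (SS_deriv2 a z).continuousAt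

lemma SS_lower (a : ℝ) {x y : ℝ} (h : x ≤ y) : (y - x) / 20 ≤ SS a y - SS a x := by
  have hm : Monotone (fun z => SS a z - z / 20) := by
    apply monotone_of_hasDerivAt_nonneg (f' := fun z => rho (a - lc z) - 1 / 20)
    · intro z
      have h2 : HasDerivAt (fun z : ℝ => z / 20) (1 / 20) z := (hasDerivAt_id z).div_const 20
      exact (SS_deriv2 a z).sub h2
    · intro z
      have := rho_ge (a - lc z)
      show 0 ≤ rho (a - lc z) - 1 / 20
      linarith
  have := hm h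
  simp only at this
  linarith

lemma SS_tendsto_top (a : ℝ) : Tendsto (SS a) atTop atTop := by
  apply tendsto_atTop_mono' atTop (f₁ := fun x : ℝ => x / 20)
  · filter_upwards [eventually_ge_atTop 0] with x hx
    have := SS_lower a hx
    rw [SS_zero] at this
    linarith
  · exact tendsto_id.atTop_div_const (by norm_num)

lemma SS_tendsto_bot (a : ℝ) : Tendsto (SS a) atBot atBot := by
  have h1 : Tendsto (fun x : ℝ => x / 20) atBot atBot := tendsto_id.atBot_div_const (by norm_num)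
  refine tendsto_atBot_mono' atBot ?_ h1
  filter_upwards [eventually_le_atBot 0] with x hx
  have := SS_lower a hx
  rw [SS_zero] at this
  linarith

lemma SS_surj (a : ℝ) : Surjective (SS a) :=
  (SS_cont a).surjective (SS_tendsto_top a) (SS_tendsto_bot a)

lemma bp_fam (a τ : ℝ) : bp (a - lc τ) (PP a τ) = be a + SS a τ := by
  rw [bp_eq (PP_pos a τ)]
  unfold bh
  rw [PP_eq_F, T_F]
  unfold W bB
  rw [sub_add_cancel]

lemma cp_fam (a τ : ℝ) : cp (a - lc τ) (PP a τ) = exp (-a) := by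
  rw [cp_pos (PP_pos a τ), PP_eq_F, T_F, cl_eq, sub_add_cancel]

lemma fam_le (ξ a : ℝ) {τ₁ τ₂ : ℝ} (h : τ₁ ≤ τ₂) :
    dist (fam ξ a τ₁) (fam ξ a τ₂) ≤ SS a τ₂ - SS a τ₁ := by
  apply curve_le (fun τ => a - lc τ) (fun τ => ξ + PP a τ) (fun τ => - th τ) (fun τ => PP2 a τ)
    (SS a) _ _ th_cont.neg _ _ h
  · intro t
    exact (lc_deriv t).const_sub a
  · intro t
    exact (PP_deriv2 a t).const_add ξ
  · have : Continuous (fun τ => uncurry PP2 (a, τ)) :=
      PP2_cont.comp (continuous_const.prodMk continuous_id)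
    exact this
  · intro t
    refine (SS_deriv2 a t).congr_deriv ?_
    have hr := rho_pos (a - lc t)
    have hc := Real.cosh_pos t
    have e1 : exp (-(a - lc t)) * PP2 a t = rho (a - lc t) / cosh t := by
      unfold PP2
      rw [neg_sub, Real.exp_sub, exp_lc]
      have := Real.exp_pos a
      field_simp
    rw [e1]
    have e2 : (rho (a - lc t) * - th t) ^ 2 + (rho (a - lc t) / cosh t) ^ 2 =
        rho (a - lc t) ^ 2 := by
      rw [mul_pow, neg_sq, th_sq, div_pow]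
      ring
    rw [e2, Real.sqrt_sq hr.le]

lemma fam_dist (ξ a : ℝ) {τ₁ τ₂ : ℝ} (h : τ₁ ≤ τ₂) :
    dist (fam ξ a τ₁) (fam ξ a τ₂) = SS a τ₂ - SS a τ₁ := by
  apply le_antisymm (fam_le ξ a h)
  have h1 := bp_lip' ξ (fam ξ a τ₁) (fam ξ a τ₂)
  unfold fam at h1 ⊢
  rw [zc_pt, yc_pt, zc_pt, yc_pt, add_sub_cancel_left, add_sub_cancel_left, bp_fam, bp_fam] at h1
  have h2 := le_abs_self (be a + SS a τ₂ - (be a + SS a τ₁))
  linarith

lemma vert_le (y : ℝ) {z₁ z₂ : ℝ} (h : z₁ ≤ z₂) : dist (pt z₁ y) (pt z₂ y) ≤ XX z₂ - XX z₁ := by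
  apply curve_le (fun t => t) (fun _ => y) (fun _ => 1) (fun _ => 0) XX
    (fun t => hasDerivAt_id t) (fun t => hasDerivAt_const t y) continuous_const continuous_const
    _ h
  intro t
  refine (XX_deriv t).congr_deriv ?_
  have := rho_pos t
  simp only [mul_one, mul_zero]
  rw [zero_pow two_ne_zero, add_zero, Real.sqrt_sq this.le]

lemma vert_dist (y : ℝ) {z₁ z₂ : ℝ} (h : z₁ ≤ z₂) : dist (pt z₁ y) (pt z₂ y) = XX z₂ - XX z₁ := by
  apply le_antisymm (vert_le y h)
  have := XX_lip (pt z₁ y) (pt z₂ y)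
  rw [zc_pt, zc_pt] at this
  exact (le_abs_self _).trans this

lemma horiz_le (z : ℝ) {y₁ y₂ : ℝ} (h : y₁ ≤ y₂) :
    dist (pt z y₁) (pt z y₂) ≤ exp (-z) * (y₂ - y₁) := by
  have := curve_le (fun _ => z) (fun t => t) (fun _ => 0) (fun _ => 1) (fun t => exp (-z) * t)
    (fun t => hasDerivAt_const t z) (fun t => hasDerivAt_id t) continuous_const continuous_const
    (by
      intro t
      refine ((hasDerivAt_id t).const_mul (exp (-z))).congr_deriv ?_
      have := Real.exp_pos (-z)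
      simp only [mul_one, mul_zero]
      rw [zero_pow two_ne_zero, zero_add, Real.sqrt_sq this.le]) h
  calc dist (pt z y₁) (pt z y₂) ≤ _ := this
    _ = _ := by ring

lemma two_leg (z₁ z₂ y₁ y₂ : ℝ) :
    dist (pt z₁ y₁) (pt z₂ y₂) ≤ |XX z₁ - XX z₂| + exp (-z₂) * |y₁ - y₂| := by
  have h1 : dist (pt z₁ y₁) (pt z₂ y₁) ≤ |XX z₁ - XX z₂| := by
    rcases le_total z₁ z₂ with h | h
    · rw [abs_sub_comm]
      exact (vert_le y₁ h).trans (le_abs_self _)
    · rw [dist_comm]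
      exact (vert_le y₁ h).trans (le_abs_self _)
  have h2 : dist (pt z₂ y₁) (pt z₂ y₂) ≤ exp (-z₂) * |y₁ - y₂| := by
    have he := Real.exp_pos (-z₂)
    rcases le_total y₁ y₂ with h | h
    · rw [abs_sub_comm]
      exact (horiz_le z₂ h).trans (by gcongr; exact le_abs_self _)
    · rw [dist_comm]
      exact (horiz_le z₂ h).trans (by gcongr; exact le_abs_self _)
  exact (dist_triangle _ (pt z₂ y₁) _).trans (add_le_add h1 h2)

lemma T_tendsto_top (z : ℝ) : Tendsto (T z) atTop atTop := by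
  rw [tendsto_atTop]
  intro b
  filter_upwards [eventually_gt_atTop (F z b), eventually_gt_atTop 0] with y h1 h2
  exact (lt_T z h2 h1).le

/-- any two points with different second coordinates lie on a common family curve -/
lemma connect (p q : X) (h : yc p < yc q) :
    ∃ ξ a τ₁ τ₂, τ₁ < τ₂ ∧ p = fam ξ a τ₁ ∧ q = fam ξ a τ₂ := by
  set z₁ := zc p with hz₁
  set z₂ := zc q with hz₂
  set y₁ := yc p with hy₁
  set y₂ := yc q with hy₂
  set g : ℝ → ℝ := fun ξ => cp z₂ (y₂ - ξ) - cp z₁ (y₁ - ξ) with hg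
  have hgc : Continuous g :=
    ((cp_cont z₂).comp (continuous_const.sub continuous_id)).sub
      ((cp_cont z₁).comp (continuous_const.sub continuous_id))
  have hg1 : 0 < g y₁ := by
    simp only [hg, sub_self]
    rw [cp_neg le_rfl, sub_zero, cp_pos (by linarith)]
    exact cl_pos _ _
  -- a point where g is negative
  have hsub : ∀ y : ℝ, Tendsto (fun ξ => y - ξ) atBot atTop := by
    intro y
    exact tendsto_atTop_add_const_left atBot y tendsto_neg_atBot_atTop
  have hR : ∀ z y : ℝ, ∀ᶠ ξ in atBot, F z (-(T z (y - ξ))) < (y₂ - y₁) / 2 := by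
    intro z y
    have h1 : Tendsto (fun ξ => -(T z (y - ξ))) atBot atBot :=
      tendsto_neg_atTop_atBot.comp ((T_tendsto_top z).comp (hsub y))
    have h2 := (F_tendsto_bot z).comp h1
    exact h2.eventually (gt_mem_nhds (by linarith))
  obtain ⟨ξ₀, hA, hB, hC⟩ := ((hR z₁ y₁).and ((hR z₂ y₂).and
    (eventually_lt_atBot y₁))).exists
  have hp1 : 0 < y₁ - ξ₀ := by linarith
  have hp2 : 0 < y₂ - ξ₀ := by linarith
  have hg0 : g ξ₀ < 0 := by
    simp only [hg]
    rw [cp_pos hp1, cp_pos hp2, cl_eq, cl_eq, sub_neg]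
    set τ₁ := T z₁ (y₁ - ξ₀) with hτ₁
    set τ₂ := T z₂ (y₂ - ξ₀) with hτ₂
    have e1 : F z₁ τ₁ = y₁ - ξ₀ := F_T z₁ hp1
    have e2 : F z₂ τ₂ = y₂ - ξ₀ := F_T z₂ hp2
    rw [F_reflect z₁ τ₁] at e1
    rw [F_reflect z₂ τ₂] at e2
    have f1 := F_pos z₁ (-τ₁)
    have f2 := F_pos z₂ (-τ₂)
    have hlt : EE (exp (z₁ + lc τ₁)) < EE (exp (z₂ + lc τ₂)) := by linarith
    have hlt2 : exp (z₁ + lc τ₁) < exp (z₂ + lc τ₂) := by
      by_contra hcon
      push Not at hcon
      have := EE_mono hcon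
      linarith
    rw [Real.exp_lt_exp] at hlt2 ⊢
    linarith
  have hle : ξ₀ ≤ y₁ := by linarith
  obtain ⟨ξ, ⟨hξ1, hξ2⟩, hξ0⟩ := intermediate_value_Ioo hle hgc.continuousOn ⟨hg0, hg1⟩
  have hq1 : 0 < y₁ - ξ := by linarith
  have hq2 : 0 < y₂ - ξ := by linarith
  simp only [hg] at hξ0
  rw [cp_pos hq1, cp_pos hq2, cl_eq, cl_eq, sub_eq_zero] at hξ0
  have hzz := Real.exp_injective hξ0
  set τ₁ := T z₁ (y₁ - ξ) with hτ₁
  set τ₂ := T z₂ (y₂ - ξ) with hτ₂
  have e1 : F z₁ τ₁ = y₁ - ξ := F_T z₁ hq1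
  have e2 : F z₂ τ₂ = y₂ - ξ := F_T z₂ hq2
  set a := z₁ + lc τ₁ with ha
  have ha2 : z₂ + lc τ₂ = a := by linarith
  have g1 : PP a τ₁ = y₁ - ξ := by
    rw [PP_eq_F, ha, add_sub_cancel_right, e1]
  have g2 : PP a τ₂ = y₂ - ξ := by
    rw [PP_eq_F, ← ha2, add_sub_cancel_right, e2]
  refine ⟨ξ, a, τ₁, τ₂, ?_, ?_, ?_⟩
  · rw [← (PP_strictMono a).lt_iff_lt, g1, g2]; linarith
  · apply X_ext
    · unfold fam; rw [zc_pt, ← hz₁]; linarith
    · unfold fam; rw [yc_pt, ← hy₁, g1]; ring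
  · apply X_ext
    · unfold fam; rw [zc_pt, ← hz₂]; linarith
    · unfold fam; rw [yc_pt, ← hy₂, g2]; ring

/-- a point between two points of a family curve lies on the curve -/
lemma between (ξ a : ℝ) {τ₁ τ₂ : ℝ} (h : τ₁ ≤ τ₂) (w : X)
    (hw : dist (fam ξ a τ₁) w + dist w (fam ξ a τ₂) = SS a τ₂ - SS a τ₁) :
    ∃ τ, w = fam ξ a τ ∧ SS a τ = SS a τ₁ + dist (fam ξ a τ₁) w := by
  have _ := h
  set g : ℝ → ℝ := fun ξ' => bp (zc w) (yc w - ξ') -
    bp (a - lc τ₁) (ξ + PP a τ₁ - ξ') with hg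
  have hgle : ∀ ξ', g ξ' ≤ dist (fam ξ a τ₁) w := by
    intro ξ'
    have := bp_lip' ξ' (fam ξ a τ₁) w
    unfold fam at this ⊢
    rw [zc_pt, yc_pt] at this
    exact (le_abs_self _).trans this
  have hgξ : g ξ = dist (fam ξ a τ₁) w := by
    apply le_antisymm (hgle ξ)
    have h1 := bp_lip' ξ w (fam ξ a τ₂)
    have h2 : bp (zc (fam ξ a τ₂)) (yc (fam ξ a τ₂) - ξ) = be a + SS a τ₂ := by
      unfold fam
      rw [zc_pt, yc_pt, add_sub_cancel_left, bp_fam]
    rw [h2] at h1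
    have h3 := (le_abs_self _).trans h1
    simp only [hg]
    rw [add_sub_cancel_left, bp_fam]
    linarith
  have hmax : IsLocalMax g ξ := by
    apply Filter.Eventually.of_forall
    intro x
    show g x ≤ g ξ
    rw [hgξ]
    exact hgle x
  have hder : HasDerivAt g (-(cp (zc w) (yc w - ξ)) + cp (a - lc τ₁) (PP a τ₁)) ξ := by
    have h1 : HasDerivAt (fun ξ' => bp (zc w) (yc w - ξ')) (cp (zc w) (yc w - ξ) * (-1)) ξ :=
      HasDerivAt.comp (h₂ := bp (zc w)) (h := fun ξ' => yc w - ξ') ξ (bp_deriv _ _)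
        ((hasDerivAt_id ξ).const_sub (yc w))
    have h2 : HasDerivAt (fun ξ' => bp (a - lc τ₁) (ξ + PP a τ₁ - ξ'))
        (cp (a - lc τ₁) (ξ + PP a τ₁ - ξ) * (-1)) ξ :=
      HasDerivAt.comp (h₂ := bp (a - lc τ₁)) (h := fun ξ' => ξ + PP a τ₁ - ξ') ξ (bp_deriv _ _)
        ((hasDerivAt_id ξ).const_sub (ξ + PP a τ₁))
    refine (h1.sub h2).congr_deriv ?_
    rw [add_sub_cancel_left]
    ring
  have hz := hmax.hasDerivAt_eq_zero hder
  rw [cp_fam] at hz
  have hcw : cp (zc w) (yc w - ξ) = exp (-a) := by linarith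
  have hpos : 0 < yc w - ξ := by
    by_contra hcon
    push Not at hcon
    rw [cp_neg hcon] at hcw
    exact (Real.exp_pos (-a)).ne hcw
  set τ := T (zc w) (yc w - ξ) with hτ
  rw [cp_pos hpos, cl_eq] at hcw
  have ha : zc w + lc τ = a := by
    have := Real.exp_injective hcw
    linarith
  have hF : F (zc w) τ = yc w - ξ := F_T _ hpos
  have hPP : PP a τ = yc w - ξ := by
    rw [PP_eq_F, ← ha, add_sub_cancel_right, hF]
  have hwf : w = fam ξ a τ := by
    apply X_ext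
    · unfold fam; rw [zc_pt]; linarith
    · unfold fam; rw [yc_pt, hPP]; ring
  refine ⟨τ, hwf, ?_⟩
  have hzw : zc w = a - lc τ := by linarith
  have : g ξ = (be a + SS a τ) - (be a + SS a τ₁) := by
    simp only [hg]
    rw [add_sub_cancel_left, bp_fam, ← hPP, hzw, bp_fam]
  rw [← hgξ, this]
  ring

/-- strict inequality for the vertical coordinate along a family curve -/
lemma strict_vert (a : ℝ) {τ₁ τ₂ : ℝ} (h : τ₁ < τ₂) :
    |XX (a - lc τ₂) - XX (a - lc τ₁)| < SS a τ₂ - SS a τ₁ := by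
  have hX : ∀ τ, HasDerivAt (fun τ => XX (a - lc τ)) (rho (a - lc τ) * (- th τ)) τ := by
    intro τ
    exact HasDerivAt.comp (h₂ := XX) (h := fun τ => a - lc τ) τ (XX_deriv _)
      ((lc_deriv τ).const_sub a)
  have m1 : StrictMono (fun τ => SS a τ - XX (a - lc τ)) := by
    apply strictMono_of_hasDerivAt_pos (fun τ => (SS_deriv2 a τ).sub (hX τ))
    intro τ
    have h1 := rho_pos (a - lc τ)
    have h2 := neg_one_lt_th τ
    nlinarith
  have m2 : StrictMono (fun τ => SS a τ + XX (a - lc τ)) := by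
    apply strictMono_of_hasDerivAt_pos (fun τ => (SS_deriv2 a τ).add (hX τ))
    intro τ
    have h1 := rho_pos (a - lc τ)
    have h2 := th_lt_one τ
    nlinarith
  have h1 := m1 h
  have h2 := m2 h
  simp only at h1 h2
  rw [abs_lt]
  constructor <;> linarith

/-- vertical version of `between` -/
lemma between_vert {z₁ z₂ y : ℝ} (h : z₁ ≤ z₂) (w : X)
    (hw : dist (pt z₁ y) w + dist w (pt z₂ y) = XX z₂ - XX z₁) :
    yc w = y ∧ XX (zc w) = XX z₁ + dist (pt z₁ y) w := by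
  have _ := h
  have h1 := XX_lip (pt z₁ y) w
  have h2 := XX_lip w (pt z₂ y)
  rw [zc_pt] at h1 h2
  have h1' := (le_abs_self _).trans h1
  have h2' := (le_abs_self _).trans h2
  have hX : XX (zc w) = XX z₁ + dist (pt z₁ y) w := by linarith
  refine ⟨?_, hX⟩
  rcases lt_trichotomy (yc w) y with hy | hy | hy
  · exfalso
    obtain ⟨ξ, a, τ₁, τ₂, hτ, e1, e2⟩ := connect w (pt z₁ y) (by rw [yc_pt]; exact hy)
    have hd := fam_dist ξ a hτ.le
    rw [← e1, ← e2, dist_comm] at hd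
    have hs := strict_vert a hτ
    have z1 : zc w = a - lc τ₁ := by rw [e1]; unfold fam; rw [zc_pt]
    have z2 : z₁ = a - lc τ₂ := by
      have := congrArg zc e2
      unfold fam at this
      rw [zc_pt, zc_pt] at this
      exact this
    rw [← z1, ← z2, ← hd, abs_sub_comm] at hs
    have := le_abs_self (XX (zc w) - XX z₁)
    linarith
  · exact hy
  · exfalso
    obtain ⟨ξ, a, τ₁, τ₂, hτ, e1, e2⟩ := connect (pt z₁ y) w (by rw [yc_pt]; exact hy)
    have hd := fam_dist ξ a hτ.le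
    rw [← e1, ← e2] at hd
    have hs := strict_vert a hτ
    have z1 : z₁ = a - lc τ₁ := by
      have := congrArg zc e1
      unfold fam at this
      rw [zc_pt, zc_pt] at this
      exact this
    have z2 : zc w = a - lc τ₂ := by rw [e2]; unfold fam; rw [zc_pt]
    rw [← z1, ← z2, ← hd] at hs
    have := le_abs_self (XX (zc w) - XX z₁)
    linarith

end Pool.Agent.H.MP_92a93b_gt
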